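import Mathlib

/-!
Two-particle discrete series of `SL(2)`, level by level: raising and lowering operators on tensors
`x j k` (`j + k = m`), invariant forms, and positivity of an invariant form from its values on the
primitive vectors.
-/

namespace Pool.Agent.ConeRadial

open Finset

/-- lowering operator -/
def low (x : ℕ → ℕ → ℝ) : ℕ → ℕ → ℝ :=
  fun j k => ((j : ℝ) + 1) * x (j + 1) k + ((k : ℝ) + 1) * x j (k + 1)

/-- first half of the raising operator -/
def rai1 (t : ℝ) (x : ℕ → ℕ → ℝ) : ℕ → ℕ → ℝ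
  | 0, _ => 0
  | j + 1, k => (t + j) * x j k

/-- second half of the raising operator -/
def rai2 (t : ℝ) (x : ℕ → ℕ → ℝ) : ℕ → ℕ → ℝ
  | _, 0 => 0
  | j, k + 1 => (t + k) * x j k

/-- raising operator -/
def rai (t : ℝ) (x : ℕ → ℕ → ℝ) : ℕ → ℕ → ℝ := fun j k => rai1 t x j k + rai2 t x j k

/-- the form of level `m` with matrix `F` -/
def frm (F : ℕ → ℕ → ℕ → ℕ → ℝ) (m : ℕ) (x y : ℕ → ℕ → ℝ) : ℝ :=
  ∑ p ∈ antidiagonal m, ∑ q ∈ antidiagonal m, x p.1 p.2 * y q.1 q.2 * F p.1 p.2 q.1 q.2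

/-- invariance -/
def Inv (t : ℝ) (F : ℕ → ℕ → ℕ → ℕ → ℝ) : Prop :=
  ∀ j k j' k', j' + k' = j + k + 1 →
    (t + j) * F (j + 1) k j' k' + (t + k) * F j (k + 1) j' k' =
      j' * F j k (j' - 1) k' + k' * F j k j' (k' - 1)

/-- symmetry -/
def Sym (F : ℕ → ℕ → ℕ → ℕ → ℝ) : Prop := ∀ j k j' k', F j k j' k' = F j' k' j k

theorem sum_rai (t : ℝ) (x G : ℕ → ℕ → ℝ) (m : ℕ) :
    ∑ p ∈ antidiagonal (m + 1), rai t x p.1 p.2 * G p.1 p.2 =
      ∑ p ∈ antidiagonal m, x p.1 p.2 *
        ((t + p.1) * G (p.1 + 1) p.2 + (t + p.2) * G p.1 (p.2 + 1)) := by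
  have h1 : ∑ p ∈ antidiagonal (m + 1), rai1 t x p.1 p.2 * G p.1 p.2 =
      ∑ p ∈ antidiagonal m, x p.1 p.2 * ((t + p.1) * G (p.1 + 1) p.2) := by
    rw [Nat.sum_antidiagonal_succ]
    simp only [rai1, zero_mul, zero_add]
    exact sum_congr rfl fun p _ => by ring
  have h2 : ∑ p ∈ antidiagonal (m + 1), rai2 t x p.1 p.2 * G p.1 p.2 =
      ∑ p ∈ antidiagonal m, x p.1 p.2 * ((t + p.2) * G p.1 (p.2 + 1)) := by
    rw [Nat.sum_antidiagonal_succ']
    simp only [rai2, zero_mul, zero_add]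
    exact sum_congr rfl fun p _ => by ring
  have h3 : ∀ p : ℕ × ℕ, rai t x p.1 p.2 * G p.1 p.2 =
      rai1 t x p.1 p.2 * G p.1 p.2 + rai2 t x p.1 p.2 * G p.1 p.2 := fun p => add_mul _ _ _
  have h4 : ∀ p : ℕ × ℕ, x p.1 p.2 * ((t + p.1) * G (p.1 + 1) p.2 + (t + p.2) * G p.1 (p.2 + 1)) =
      x p.1 p.2 * ((t + p.1) * G (p.1 + 1) p.2) + x p.1 p.2 * ((t + p.2) * G p.1 (p.2 + 1)) :=
    fun p => mul_add _ _ _
  simp only [h3, h4]
  rw [sum_add_distrib, sum_add_distrib, h1, h2]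

theorem sum_low (y H : ℕ → ℕ → ℝ) (m : ℕ) :
    ∑ q ∈ antidiagonal (m + 1), y q.1 q.2 * (q.1 * H (q.1 - 1) q.2 + q.2 * H q.1 (q.2 - 1)) =
      ∑ q ∈ antidiagonal m, low y q.1 q.2 * H q.1 q.2 := by
  have h1 : ∑ q ∈ antidiagonal (m + 1), y q.1 q.2 * (q.1 * H (q.1 - 1) q.2) =
      ∑ q ∈ antidiagonal m, ((q.1 : ℝ) + 1) * y (q.1 + 1) q.2 * H q.1 q.2 := by
    rw [Nat.sum_antidiagonal_succ]
    simp only [Nat.cast_zero, zero_mul, mul_zero, zero_add, Nat.add_sub_cancel, Nat.cast_add,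
      Nat.cast_one]
    exact sum_congr rfl fun p _ => by ring
  have h2 : ∑ q ∈ antidiagonal (m + 1), y q.1 q.2 * (q.2 * H q.1 (q.2 - 1)) =
      ∑ q ∈ antidiagonal m, ((q.2 : ℝ) + 1) * y q.1 (q.2 + 1) * H q.1 q.2 := by
    rw [Nat.sum_antidiagonal_succ']
    simp only [Nat.cast_zero, zero_mul, mul_zero, zero_add, Nat.add_sub_cancel, Nat.cast_add,
      Nat.cast_one]
    exact sum_congr rfl fun p _ => by ring
  have h3 : ∀ q : ℕ × ℕ, low y q.1 q.2 * H q.1 q.2 =
      ((q.1 : ℝ) + 1) * y (q.1 + 1) q.2 * H q.1 q.2 +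
        ((q.2 : ℝ) + 1) * y q.1 (q.2 + 1) * H q.1 q.2 := fun q => add_mul _ _ _
  have h4 : ∀ q : ℕ × ℕ, y q.1 q.2 * (q.1 * H (q.1 - 1) q.2 + q.2 * H q.1 (q.2 - 1)) =
      y q.1 q.2 * (q.1 * H (q.1 - 1) q.2) + y q.1 q.2 * (q.2 * H q.1 (q.2 - 1)) :=
    fun q => mul_add _ _ _
  simp only [h3, h4]
  rw [sum_add_distrib, sum_add_distrib, h1, h2]

theorem frm_rai {t : ℝ} {F : ℕ → ℕ → ℕ → ℕ → ℝ} (hF : Inv t F) (m : ℕ) (x y : ℕ → ℕ → ℝ) :
    frm F (m + 1) (rai t x) y = frm F m x (low y) := by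
  unfold frm
  have h1 : ∀ p : ℕ × ℕ, ∑ q ∈ antidiagonal (m + 1), rai t x p.1 p.2 * y q.1 q.2 *
      F p.1 p.2 q.1 q.2 = rai t x p.1 p.2 * ∑ q ∈ antidiagonal (m + 1), y q.1 q.2 *
      F p.1 p.2 q.1 q.2 := by
    intro p
    rw [mul_sum]
    exact sum_congr rfl fun q _ => by ring
  simp only [h1]
  rw [sum_rai t x (fun j k => ∑ q ∈ antidiagonal (m + 1), y q.1 q.2 * F j k q.1 q.2) m]
  refine sum_congr rfl fun p hp => ?_
  rw [HasAntidiagonal.mem_antidiagonal] at hp
  have h2 : (t + p.1) * ∑ q ∈ antidiagonal (m + 1), y q.1 q.2 * F (p.1 + 1) p.2 q.1 q.2 +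
      (t + p.2) * ∑ q ∈ antidiagonal (m + 1), y q.1 q.2 * F p.1 (p.2 + 1) q.1 q.2 =
      ∑ q ∈ antidiagonal (m + 1), y q.1 q.2 *
        (q.1 * F p.1 p.2 (q.1 - 1) q.2 + q.2 * F p.1 p.2 q.1 (q.2 - 1)) := by
    rw [mul_sum, mul_sum, ← sum_add_distrib]
    refine sum_congr rfl fun q hq => ?_
    rw [HasAntidiagonal.mem_antidiagonal] at hq
    rw [← hF p.1 p.2 q.1 q.2 (by omega)]
    ring
  rw [h2, sum_low y (fun j k => F p.1 p.2 j k) m, mul_sum]
  exact sum_congr rfl fun q _ => by ring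

theorem frm_comm {F : ℕ → ℕ → ℕ → ℕ → ℝ} (hs : Sym F) (m : ℕ) (x y : ℕ → ℕ → ℝ) :
    frm F m x y = frm F m y x := by
  unfold frm
  rw [sum_comm]
  refine sum_congr rfl fun p _ => sum_congr rfl fun q _ => ?_
  rw [hs q.1 q.2 p.1 p.2]
  ring

/-- equality on level `m` -/
def EqL (m : ℕ) (x y : ℕ → ℕ → ℝ) : Prop := ∀ j k, j + k = m → x j k = y j k

theorem frm_congr {F : ℕ → ℕ → ℕ → ℕ → ℝ} {m : ℕ} {x x' y y' : ℕ → ℕ → ℝ} (hx : EqL m x x')
    (hy : EqL m y y') : frm F m x y = frm F m x' y' := by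
  unfold frm
  refine sum_congr rfl fun p hp => sum_congr rfl fun q hq => ?_
  rw [HasAntidiagonal.mem_antidiagonal] at hp hq
  rw [hx _ _ hp, hy _ _ hq]

theorem frm_add_right (F : ℕ → ℕ → ℕ → ℕ → ℝ) (m : ℕ) (x y y' : ℕ → ℕ → ℝ) :
    frm F m x (fun j k => y j k + y' j k) = frm F m x y + frm F m x y' := by
  unfold frm
  rw [← sum_add_distrib]
  refine sum_congr rfl fun p _ => ?_
  rw [← sum_add_distrib]
  exact sum_congr rfl fun q _ => by ring

theorem frm_smul_right (F : ℕ → ℕ → ℕ → ℕ → ℝ) (m : ℕ) (c : ℝ) (x y : ℕ → ℕ → ℝ) :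
    frm F m x (fun j k => c * y j k) = c * frm F m x y := by
  unfold frm
  rw [mul_sum]
  refine sum_congr rfl fun p _ => ?_
  rw [mul_sum]
  exact sum_congr rfl fun q _ => by ring

theorem low_rai (t : ℝ) (x : ℕ → ℕ → ℝ) (j k : ℕ) :
    low (rai t x) j k = rai t (low x) j k + (2 * t + 2 * (j + k)) * x j k := by
  cases j <;> cases k <;> simp [low, rai, rai1, rai2] <;> ring

theorem frm_rai_rai {t : ℝ} {F : ℕ → ℕ → ℕ → ℕ → ℝ} (hF : Inv t F) (m : ℕ)
    (x : ℕ → ℕ → ℝ) : frm F (m + 1) (rai t x) (rai t x) =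
      frm F m x (rai t (low x)) + (2 * t + 2 * m) * frm F m x x := by
  rw [frm_rai hF, ← frm_smul_right, ← frm_add_right]
  apply frm_congr (fun _ _ _ => rfl)
  intro j k hjk
  rw [low_rai]
  have : (m : ℝ) = (j : ℝ) + k := by rw [← hjk]; push_cast; ring
  rw [this]

/-- the diagonal form -/
noncomputable def nform (e : ℕ → ℝ) : ℕ → ℕ → ℕ → ℕ → ℝ :=
  fun j k j' k' => if j = j' ∧ k = k' then e j * e k else 0

/-- the rank one form -/
noncomputable def pform (e : ℕ → ℝ) : ℕ → ℕ → ℕ → ℕ → ℝ :=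
  fun j k j' k' => if j + k = j' + k' then e (j + k) else 0

theorem nform_sym (e : ℕ → ℝ) : Sym (nform e) := by
  intro j k j' k'
  unfold nform
  by_cases h : j = j' ∧ k = k'
  · obtain ⟨rfl, rfl⟩ := h
    simp
  · rw [if_neg h, if_neg (fun h' => h ⟨h'.1.symm, h'.2.symm⟩)]

theorem pform_sym (e : ℕ → ℝ) : Sym (pform e) := by
  intro j k j' k'
  unfold pform
  by_cases h : j + k = j' + k'
  · rw [if_pos h, if_pos h.symm, h]
  · rw [if_neg h, if_neg (fun h' => h h'.symm)]

theorem nform_inv {t : ℝ} {e : ℕ → ℝ} (he : ∀ j : ℕ, (t + j) * e (j + 1) = (j + 1) * e j) :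
    Inv t (nform e) := by
  intro j k j' k' h
  unfold nform
  by_cases h1 : j' = j + 1
  · have h2 : k' = k := by omega
    subst h1 h2
    have h3 : ¬ (j = j + 1 ∧ k' + 1 = k') := by omega
    have h4 : ¬ (j = j + 1 ∧ k' = k' - 1) := by omega
    rw [if_pos ⟨rfl, rfl⟩, if_neg h3, if_neg h4, if_pos (by simp)]
    push_cast
    linear_combination e k' * he j
  · by_cases h2 : j' = j
    · have h3 : k' = k + 1 := by omega
      subst h2 h3
      have h4 : ¬ (j' + 1 = j' ∧ k = k + 1) := by omega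
      rw [if_neg h4, if_pos ⟨rfl, rfl⟩]
      by_cases h5 : j' = 0
      · subst h5
        simp only [Nat.cast_zero, zero_mul, zero_add, Nat.add_sub_cancel, true_and, if_true]
        push_cast
        linear_combination e 0 * he k
      · have h6 : ¬ (j' = j' - 1 ∧ k = k + 1) := by omega
        rw [if_neg h6, if_pos (by simp)]
        push_cast
        linear_combination e j' * he k
    · have h3 : ¬ (j + 1 = j' ∧ k = k') := by omega
      have h4 : ¬ (j = j' ∧ k + 1 = k') := by omega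
      rw [if_neg h3, if_neg h4]
      by_cases h5 : j' = 0
      · subst h5
        have h6 : ¬ (j = 0 ∧ k = k' - 1) := by omega
        rw [if_neg h6]
        simp
      · have h6 : ¬ (j = j' - 1 ∧ k = k') := by omega
        by_cases h7 : k' = 0
        · subst h7
          rw [if_neg h6]
          simp
        · have h8 : ¬ (j = j' ∧ k = k' - 1) := by omega
          rw [if_neg h6, if_neg h8]
          simp

theorem pform_inv {t : ℝ} {e : ℕ → ℝ} (he : ∀ m : ℕ, (2 * t + m) * e (m + 1) = (m + 1) * e m) :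
    Inv t (pform e) := by
  intro j k j' k' h
  unfold pform
  rw [if_pos (by omega), if_pos (by omega)]
  have h0 : j + 1 + k = (j + k) + 1 := by omega
  have h0' : j + (k + 1) = (j + k) + 1 := by omega
  rw [h0, h0']
  have h1 : (j' : ℝ) * (if j + k = j' - 1 + k' then e (j + k) else 0) = j' * e (j + k) := by
    by_cases h5 : j' = 0
    · subst h5; simp
    · rw [if_pos (by omega)]
  have h2 : (k' : ℝ) * (if j + k = j' + (k' - 1) then e (j + k) else 0) = k' * e (j + k) := by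
    by_cases h5 : k' = 0
    · subst h5; simp
    · rw [if_pos (by omega)]
  rw [h1, h2]
  have h3 : (j' : ℝ) + k' = j + k + 1 := by exact_mod_cast h
  have h4 := he (j + k)
  push_cast at h4
  linear_combination h4 - e (j + k) * h3

theorem frm_nform (e : ℕ → ℝ) (m : ℕ) (x y : ℕ → ℕ → ℝ) :
    frm (nform e) m x y = ∑ p ∈ antidiagonal m, x p.1 p.2 * y p.1 p.2 * (e p.1 * e p.2) := by
  unfold frm nform
  refine sum_congr rfl fun p hp => ?_
  rw [sum_eq_single p]
  · simp
  · intro q _ hqp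
    rw [if_neg (fun h => hqp (Prod.ext h.1.symm h.2.symm)), mul_zero]
  · intro h
    exact absurd hp h

theorem frm_pform (e : ℕ → ℝ) (m : ℕ) (x y : ℕ → ℕ → ℝ) :
    frm (pform e) m x y = e m * (∑ p ∈ antidiagonal m, x p.1 p.2) *
      (∑ p ∈ antidiagonal m, y p.1 p.2) := by
  unfold frm pform
  rw [mul_assoc, sum_mul_sum, mul_sum]
  refine sum_congr rfl fun p hp => ?_
  rw [mul_sum]
  refine sum_congr rfl fun q hq => ?_
  rw [HasAntidiagonal.mem_antidiagonal] at hp hq
  rw [if_pos (by omega), hp]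
  ring

/-- the primitive vectors `(z₁ - z₂)^m` -/
def prim : ℕ → ℕ → ℝ := fun j k => (-1) ^ k * ((j + k).choose j : ℝ)

theorem low_prim (j k : ℕ) : low prim j k = 0 := by
  unfold low prim
  have h1 : ((j : ℝ) + 1) * ((j + 1 + k).choose (j + 1) : ℝ) =
      ((j : ℝ) + k + 1) * ((j + k).choose j : ℝ) := by
    have := Nat.add_one_mul_choose_eq (j + k) j
    have h2 : ((j + k : ℕ) + 1 : ℝ) * ((j + k).choose j : ℝ) =
        ((j + k + 1).choose (j + 1) : ℝ) * ((j : ℝ) + 1) := by exact_mod_cast this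
    rw [show j + 1 + k = j + k + 1 by omega]
    push_cast at h2
    linear_combination -h2
  have h3 : ((k : ℝ) + 1) * ((j + (k + 1)).choose j : ℝ) =
      ((j : ℝ) + k + 1) * ((j + k).choose j : ℝ) := by
    have := Nat.add_one_mul_choose_eq (j + k) k
    have h2 : ((j + k : ℕ) + 1 : ℝ) * ((j + k).choose k : ℝ) =
        ((j + k + 1).choose (k + 1) : ℝ) * ((k : ℝ) + 1) := by exact_mod_cast this
    rw [Nat.choose_symm_of_eq_add (show j + (k + 1) = j + (k + 1) from rfl),
      Nat.choose_symm_of_eq_add (show j + k = j + k from rfl)]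
    rw [show j + (k + 1) = j + k + 1 by omega]
    push_cast at h2
    linear_combination -h2
  rw [pow_succ]
  linear_combination (-1 : ℝ) ^ k * (h1 - h3)

theorem frm_nform_nonneg {e : ℕ → ℝ} (hpos : ∀ j, 0 < e j) (m : ℕ) (x : ℕ → ℕ → ℝ) :
    0 ≤ frm (nform e) m x x := by
  rw [frm_nform]
  refine sum_nonneg fun p _ => ?_
  exact mul_nonneg (mul_self_nonneg _) (mul_pos (hpos _) (hpos _)).le

theorem eq_zero_of_nform {e : ℕ → ℝ} (hpos : ∀ j, 0 < e j) (m : ℕ) (x : ℕ → ℕ → ℝ)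
    (h : frm (nform e) m x x ≤ 0) (j k : ℕ) (hjk : j + k = m) : x j k = 0 := by
  rw [frm_nform] at h
  have h1 : ∀ p ∈ antidiagonal m, 0 ≤ x p.1 p.2 * x p.1 p.2 * (e p.1 * e p.2) := fun p _ =>
    mul_nonneg (mul_self_nonneg _) (mul_pos (hpos _) (hpos _)).le
  have h2 := (sum_eq_zero_iff_of_nonneg h1).1 (le_antisymm h (sum_nonneg h1)) (j, k)
    (HasAntidiagonal.mem_antidiagonal.2 hjk)
  have h3 := (mul_pos (hpos j) (hpos k)).ne'
  simpa [h3] using h2

theorem frm_low_nonneg {t : ℝ} {F : ℕ → ℕ → ℕ → ℕ → ℝ} (hF : Inv t F) (hs : Sym F) (m : ℕ)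
    (x : ℕ → ℕ → ℝ) (h : ∀ m', m' < m → ∀ y, 0 ≤ frm F m' y y) :
    0 ≤ frm F m x (rai t (low x)) := by
  cases m with
  | zero =>
    unfold frm
    simp [rai, rai1, rai2]
  | succ m =>
    rw [frm_comm hs, frm_rai hF]
    exact h m (Nat.lt_succ_self m) _

theorem frm_rai_prim {t : ℝ} {F : ℕ → ℕ → ℕ → ℕ → ℝ} (hF : Inv t F) (m : ℕ)
    (x : ℕ → ℕ → ℝ) : frm F (m + 1) (rai t x) prim = 0 := by
  rw [frm_rai hF]
  unfold frm
  refine sum_eq_zero fun p _ => sum_eq_zero fun q _ => ?_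
  rw [low_prim]
  ring

theorem prim_nform_pos {e : ℕ → ℝ} (hpos : ∀ j, 0 < e j) (m : ℕ) :
    0 < frm (nform e) m prim prim := by
  rcases (frm_nform_nonneg hpos m prim).lt_or_eq with h | h
  · exact h
  · have := eq_zero_of_nform hpos m prim h.symm.le 0 m (zero_add m)
    simp [prim] at this

theorem rai_prim_inj {t : ℝ} (ht : 0 < t) {e : ℕ → ℝ} (hpos : ∀ j, 0 < e j)
    (he : ∀ j : ℕ, (t + j) * e (j + 1) = (j + 1) * e j) (m : ℕ) (x : ℕ → ℕ → ℝ) (α : ℝ)
    (h : ∀ j k, j + k = m + 1 → rai t x j k + α * prim j k = 0) :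
    α = 0 ∧ ∀ j k, j + k = m → x j k = 0 := by
  have hN := nform_inv he
  have hz : ∀ y, frm (nform e) (m + 1) y (fun j k => rai t x j k + α * prim j k) = 0 := by
    intro y
    unfold frm
    refine sum_eq_zero fun p _ => sum_eq_zero fun q hq => ?_
    rw [HasAntidiagonal.mem_antidiagonal] at hq
    simp only [h _ _ hq]
    ring
  have h1 := hz prim
  rw [frm_add_right _ _ _ (rai t x) (fun j k => α * prim j k), frm_smul_right,
    frm_comm (nform_sym e), frm_rai_prim hN, zero_add] at h1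
  have hα : α = 0 := by
    rcases mul_eq_zero.1 h1 with h2 | h2
    · exact h2
    · exact absurd h2 (prim_nform_pos hpos (m + 1)).ne'
  refine ⟨hα, ?_⟩
  have h2 := hz (rai t x)
  rw [frm_add_right _ _ _ (rai t x) (fun j k => α * prim j k), frm_smul_right, hα, zero_mul,
    add_zero, frm_rai_rai hN] at h2
  have h3 := frm_low_nonneg hN (nform_sym e) m x (fun m' _ y => frm_nform_nonneg hpos m' y)
  have h4 := frm_nform_nonneg hpos m x
  have h5 : 0 < 2 * t + 2 * (m : ℝ) := by positivity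
  have h6 : frm (nform e) m x x ≤ 0 := by
    by_contra hc
    push Not at hc
    have := mul_pos h5 hc
    linarith
  exact eq_zero_of_nform hpos m x h6

/-- extension of a vector to a function on pairs -/
def extF {m : ℕ} (x : Fin (m + 1) → ℝ) : ℕ → ℕ → ℝ :=
  fun j _ => if h : j < m + 1 then x ⟨j, h⟩ else 0

theorem exists_decomp {t : ℝ} (ht : 0 < t) {e : ℕ → ℝ} (hpos : ∀ j, 0 < e j)
    (he : ∀ j : ℕ, (t + j) * e (j + 1) = (j + 1) * e j) (m : ℕ) (y : ℕ → ℕ → ℝ) :
    ∃ (x : ℕ → ℕ → ℝ) (α : ℝ), ∀ j k, j + k = m + 1 → y j k = rai t x j k + α * prim j k := by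
  let Φ : ((Fin (m + 1) → ℝ) × ℝ) →ₗ[ℝ] (Fin (m + 2) → ℝ) :=
    { toFun := fun z i => rai t (extF z.1) i (m + 1 - i) + z.2 * prim i (m + 1 - i)
      map_add' := by
        intro z z'
        ext i
        have h1 : ∀ j k, extF (z + z').1 j k = extF z.1 j k + extF z'.1 j k := by
          intro j k
          unfold extF
          split_ifs <;> simp
        have h2 : ∀ j k, rai t (extF (z + z').1) j k =
            rai t (extF z.1) j k + rai t (extF z'.1) j k := by
          intro j k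
          cases j <;> cases k <;> simp only [rai, rai1, rai2, h1] <;> ring
        simp only [h2, Prod.snd_add, Pi.add_apply]
        ring
      map_smul' := by
        intro c z
        ext i
        have h1 : ∀ j k, extF (c • z).1 j k = c * extF z.1 j k := by
          intro j k
          unfold extF
          split_ifs <;> simp
        have h2 : ∀ j k, rai t (extF (c • z).1) j k = c * rai t (extF z.1) j k := by
          intro j k
          cases j <;> cases k <;> simp only [rai, rai1, rai2, h1] <;> ring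
        simp only [h2, Prod.smul_snd, Pi.smul_apply, smul_eq_mul, RingHom.id_apply]
        ring }
  have hΦ : ∀ z i, Φ z i = rai t (extF z.1) i (m + 1 - i) + z.2 * prim i (m + 1 - i) :=
    fun _ _ => rfl
  have hinj : Function.Injective Φ := by
    rw [injective_iff_map_eq_zero]
    rintro ⟨x, α⟩ hz
    obtain ⟨h1, h2⟩ := rai_prim_inj ht hpos he m (extF x) α (by
      intro j k hjk
      have h3 := congrFun hz ⟨j, by omega⟩
      rw [hΦ] at h3
      have h4 : m + 1 - j = k := by omega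
      simpa [h4] using h3)
    refine Prod.ext ?_ h1
    ext i
    have h5 := h2 i (m - i) (by omega)
    have h6 : (i : ℕ) ≤ m := by omega
    simpa [extF, h6] using h5
  have hsurj : Function.Surjective Φ := by
    refine (LinearMap.injective_iff_surjective_of_finrank_eq_finrank ?_).1 hinj
    simp
  obtain ⟨⟨x, α⟩, hx⟩ := hsurj (fun i => y i (m + 1 - i))
  refine ⟨extF x, α, fun j k hjk => ?_⟩
  have h3 := congrFun hx ⟨j, by omega⟩
  rw [hΦ] at h3
  have h4 : m + 1 - j = k := by omega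
  simp only [h4] at h3
  exact h3.symm

/-- **Positivity of an invariant form from its values on primitive vectors.** -/
theorem frm_nonneg_of_prim {t : ℝ} (ht : 0 < t) {e : ℕ → ℝ} (hpos : ∀ j, 0 < e j)
    (he : ∀ j : ℕ, (t + j) * e (j + 1) = (j + 1) * e j) {F : ℕ → ℕ → ℕ → ℕ → ℝ} (hF : Inv t F)
    (hs : Sym F) (hp : ∀ m, 0 ≤ frm F m prim prim) (m : ℕ) : ∀ x, 0 ≤ frm F m x x := by
  induction m using Nat.strong_induction_on with
  | _ m ih =>
    cases m with
    | zero =>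
      intro x
      have h0 := hp 0
      unfold frm prim at h0
      unfold frm
      simp at h0 ⊢
      exact mul_nonneg (mul_self_nonneg _) h0
    | succ m =>
      intro y
      obtain ⟨x, α, hy⟩ := exists_decomp ht hpos he m y
      have h1 : frm F (m + 1) y y = frm F (m + 1) (fun j k => rai t x j k + α * prim j k)
          (fun j k => rai t x j k + α * prim j k) := frm_congr hy hy
      have h2 : ∀ z, frm F (m + 1) z (fun j k => rai t x j k + α * prim j k) =
          frm F (m + 1) z (rai t x) + α * frm F (m + 1) z prim := by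
        intro z
        rw [frm_add_right _ _ _ (rai t x) (fun j k => α * prim j k), frm_smul_right]
      have h3 : frm F (m + 1) (rai t x) prim = 0 := frm_rai_prim hF m x
      have h4 : frm F (m + 1) prim (rai t x) = 0 := by rw [frm_comm hs, h3]
      have h1' : frm F (m + 1) y y = frm F (m + 1) (rai t x) (rai t x) +
          α * (α * frm F (m + 1) prim prim) := by
        rw [h1, h2, frm_comm hs _ (fun j k => rai t x j k + α * prim j k) (rai t x), h2,
          frm_comm hs _ (fun j k => rai t x j k + α * prim j k) prim, h2, h3, h4]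
        ring
      rw [h1', frm_rai_rai hF]
      have h5 := frm_low_nonneg hF hs m x (fun m' hm' y => ih m' (by omega) y)
      have h6 := ih m (Nat.lt_succ_self m) x
      have h7 := hp (m + 1)
      have h8 : 0 ≤ (2 * t + 2 * (m : ℝ)) * frm F m x x := by positivity
      have h9 : 0 ≤ α * (α * frm F (m + 1) prim prim) := by
        rw [← mul_assoc]
        exact mul_nonneg (mul_self_nonneg _) h7
      linarith

end Pool.Agent.ConeRadial
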