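import Mathlib

/-!
A Chu-Vandermonde sum.
-/

namespace Pool.Agent.ConeRadial

open Finset

/-- rising factorial -/
noncomputable def ph (b : ℝ) (n : ℕ) : ℝ := ∏ i ∈ range n, (b + i)

theorem ph_zero (b : ℝ) : ph b 0 = 1 := by simp [ph]

theorem ph_succ (b : ℝ) (n : ℕ) : ph b (n + 1) = ph b n * (b + n) := by
  rw [ph, prod_range_succ]; rfl

theorem ph_succ' (b : ℝ) (n : ℕ) : ph b (n + 1) = b * ph (b + 1) n := by
  rw [ph, prod_range_succ', ph, mul_comm]
  congr 1
  · simp
  · refine prod_congr rfl fun i _ => ?_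
    push_cast; ring

theorem ph_pos {b : ℝ} (hb : 0 < b) (n : ℕ) : 0 < ph b n :=
  prod_pos fun i _ => by positivity

theorem vand (n : ℕ) : ∀ b c : ℝ, 0 < b → 0 < c →
    ∑ p ∈ antidiagonal n, (n.choose p.1 : ℝ) * (1 / (ph b p.1 * ph c p.2)) =
      ph (b + c + n - 1) n / (ph b n * ph c n) := by
  induction n with
  | zero => intro b c _ _; simp [ph_zero]
  | succ n ih =>
    intro b c hb hc
    rw [sum_antidiagonal_choose_succ_mul (fun j k => 1 / (ph b j * ph c k)) n]
    have h1 : ∑ p ∈ antidiagonal n, (n.choose p.1 : ℝ) * (1 / (ph b p.1 * ph c (p.2 + 1))) =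
        1 / c * ∑ p ∈ antidiagonal n, (n.choose p.1 : ℝ) * (1 / (ph b p.1 * ph (c + 1) p.2)) := by
      rw [mul_sum]
      refine sum_congr rfl fun p _ => ?_
      rw [ph_succ']
      have := (ph_pos hb p.1).ne'
      have := (ph_pos (show 0 < c + 1 by linarith) p.2).ne'
      field_simp
    have h2 : ∑ p ∈ antidiagonal n, (n.choose p.2 : ℝ) * (1 / (ph b (p.1 + 1) * ph c p.2)) =
        1 / b * ∑ p ∈ antidiagonal n, (n.choose p.1 : ℝ) * (1 / (ph (b + 1) p.1 * ph c p.2)) := by
      rw [mul_sum]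
      refine sum_congr rfl fun p hp => ?_
      rw [HasAntidiagonal.mem_antidiagonal] at hp
      rw [ph_succ', Nat.choose_symm_of_eq_add (show n = p.1 + p.2 from hp.symm)]
      have := (ph_pos hc p.2).ne'
      have := (ph_pos (show 0 < b + 1 by linarith) p.1).ne'
      field_simp
    rw [h1, h2, ih b (c + 1) hb (by linarith), ih (b + 1) c (by linarith) hc]
    have e1 : b + (c + 1) + n - 1 = b + c + n := by ring
    have e2 : b + 1 + c + n - 1 = b + c + n := by ring
    have e3 : b + c + ((n + 1 : ℕ) : ℝ) - 1 = b + c + n := by push_cast; ring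
    rw [e1, e2, e3, ph_succ (b + c + n) n]
    have b1 : ph b (n + 1) = b * ph (b + 1) n := ph_succ' b n
    have b2 : ph b (n + 1) = ph b n * (b + n) := ph_succ b n
    have c1 : ph c (n + 1) = c * ph (c + 1) n := ph_succ' c n
    have c2 : ph c (n + 1) = ph c n * (c + n) := ph_succ c n
    have p1 := (ph_pos hb n).ne'
    have p2 := (ph_pos hc n).ne'
    have p3 := (ph_pos (show 0 < b + 1 by linarith) n).ne'
    have p4 := (ph_pos (show 0 < c + 1 by linarith) n).ne'
    have p5 : b + n ≠ 0 := by positivity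
    have p6 : c + n ≠ 0 := by positivity
    have b3 : ph (b + 1) n = ph b n * (b + n) / b := by
      rw [← b2, b1]; field_simp
    have c3 : ph (c + 1) n = ph c n * (c + n) / c := by
      rw [← c2, c1]; field_simp
    rw [b3, c3, b2, c2]
    field_simp
    ring

end Pool.Agent.ConeRadial
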