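import Mathlib
import Pool.Agent.Work.MP_b0b133_an.R.Defs
import Pool.Agent.Work.MP_b0b133_an.Radial.SL2
import Pool.Agent.Work.MP_b0b133_an.Radial.Vand

/-!
Differential recurrences of the Gegenbauer polynomials and the invariance of the quartic form.
-/

namespace Pool.Agent.ConeRadial

open Finset MeasureTheory
open scoped Real
open Pool.Agent.ConeG.Rad (Ch cf wt)

/-- derivative of `Ch` -/
noncomputable def dCh (ν : ℝ) : ℕ → ℝ → ℝ
  | 0, _ => 0
  | 1, _ => 1
  | (l + 2), t => (2 * (l + 1 + ν) * (Ch ν (l + 1) t + t * dCh ν (l + 1) t) -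
      (l + 1) * dCh ν l t) / (l + 1 + 2 * ν)

theorem Ch_zero (ν t : ℝ) : Ch ν 0 t = 1 := by rw [Ch]

theorem Ch_one (ν t : ℝ) : Ch ν 1 t = t := by rw [Ch]

theorem Ch_rec {ν : ℝ} (hν : 0 < ν) (l : ℕ) (t : ℝ) :
    (l + 1 + 2 * ν) * Ch ν (l + 2) t =
      2 * (l + 1 + ν) * t * Ch ν (l + 1) t - (l + 1) * Ch ν l t := by
  rw [Ch]
  have : (l : ℝ) + 1 + 2 * ν ≠ 0 := by positivity
  field_simp

theorem dCh_rec {ν : ℝ} (hν : 0 < ν) (l : ℕ) (t : ℝ) :
    (l + 1 + 2 * ν) * dCh ν (l + 2) t =
      2 * (l + 1 + ν) * (Ch ν (l + 1) t + t * dCh ν (l + 1) t) - (l + 1) * dCh ν l t := by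
  rw [dCh]
  have : (l : ℝ) + 1 + 2 * ν ≠ 0 := by positivity
  field_simp

theorem hasDerivAt_Ch (ν : ℝ) (l : ℕ) (t : ℝ) : HasDerivAt (Ch ν l) (dCh ν l t) t := by
  induction l using Nat.strong_induction_on with
  | _ l ih =>
    match l, ih with
    | 0, _ =>
      have : Ch ν 0 = fun _ => 1 := by ext x; rw [Ch]
      rw [this, dCh]
      exact hasDerivAt_const t 1
    | 1, _ =>
      have : Ch ν 1 = fun x => x := by ext x; rw [Ch]
      rw [this, dCh]
      exact hasDerivAt_id t
    | (l + 2), ih =>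
      have h1 := ih (l + 1) (by omega)
      have h0 := ih l (by omega)
      have : Ch ν (l + 2) = fun x => (2 * (l + 1 + ν) * x * Ch ν (l + 1) x -
          (l + 1) * Ch ν l x) / (l + 1 + 2 * ν) := by ext x; rw [Ch]
      rw [this, dCh]
      have h2 := ((((hasDerivAt_id t).const_mul (2 * ((l : ℝ) + 1 + ν))).mul h1).sub
        (h0.const_mul ((l : ℝ) + 1))).div_const ((l : ℝ) + 1 + 2 * ν)
      refine h2.congr_deriv ?_
      simp only [id_eq]
      ring

theorem continuous_Ch (ν : ℝ) (l : ℕ) : Continuous (Ch ν l) :=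
  continuous_iff_continuousAt.2 fun t => (hasDerivAt_Ch ν l t).continuousAt

theorem continuous_dCh (ν : ℝ) (l : ℕ) : Continuous (dCh ν l) := by
  induction l using Nat.strong_induction_on with
  | _ l ih =>
    match l, ih with
    | 0, _ =>
      have : dCh ν 0 = fun _ => 0 := by ext x; rw [dCh]
      rw [this]
      exact continuous_const
    | 1, _ =>
      have : dCh ν 1 = fun x => 1 := by ext x; rw [dCh]
      rw [this]
      exact continuous_const
    | (l + 2), ih =>
      have h1 := ih (l + 1) (by omega)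
      have h0 := ih l (by omega)
      have h2 := continuous_Ch ν (l + 1)
      have : dCh ν (l + 2) = fun t => (2 * (l + 1 + ν) * (Ch ν (l + 1) t + t * dCh ν (l + 1) t) -
          (l + 1) * dCh ν l t) / (l + 1 + 2 * ν) := by ext x; rw [dCh]
      rw [this]
      fun_prop

/-- lowering relation -/
theorem Ch_low {ν : ℝ} (hν : 0 < ν) (l : ℕ) (t : ℝ) :
    (1 - t ^ 2) * dCh ν (l + 1) t = (l + 1) * (Ch ν l t - t * Ch ν (l + 1) t) := by
  induction l using Nat.strong_induction_on with
  | _ l ih =>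
    match l, ih with
    | 0, _ =>
      rw [dCh, Ch, Ch]
      push_cast
      ring
    | 1, _ =>
      have h1 : (0 + 1 + 2 * ν) * Ch ν 2 t = 2 * (0 + 1 + ν) * t * Ch ν 1 t - (0 + 1) * Ch ν 0 t := by
        have := Ch_rec hν 0 t
        exact_mod_cast this
      have h2 : (0 + 1 + 2 * ν) * dCh ν 2 t =
          2 * (0 + 1 + ν) * (Ch ν 1 t + t * dCh ν 1 t) - (0 + 1) * dCh ν 0 t := by
        have := dCh_rec hν 0 t
        exact_mod_cast this
      have hd0 : dCh ν 0 t = 0 := by rw [dCh]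
      have hd1 : dCh ν 1 t = 1 := by rw [dCh]
      rw [Ch_zero, Ch_one] at h1
      rw [Ch_one, hd0, hd1] at h2
      rw [Ch_one]
      have h3 : (1 + 2 * ν) ≠ 0 := by positivity
      apply mul_left_cancel₀ h3
      push_cast
      linear_combination (1 - t ^ 2) * h2 + 2 * t * h1
    | (l + 2), ih =>
      have i1 := ih (l + 1) (by omega)
      have i0 := ih l (by omega)
      have r1 := Ch_rec hν (l + 1) t
      have r0 := Ch_rec hν l t
      have d1 := dCh_rec hν (l + 1) t
      push_cast at *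
      have h3 : ((l : ℝ) + 1 + 1 + 2 * ν) ≠ 0 := by positivity
      apply mul_left_cancel₀ h3
      have e1 : l + 2 + 1 = l + 1 + 2 := rfl
      linear_combination (1 - t ^ 2) * d1 + 2 * (l + 2 + ν) * t * i1 - (l + 2) * i0 +
        (l + 3) * t * r1 - (l + 2) * r0

end Pool.Agent.ConeRadial
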