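import Mathlib
import Pool.Agent.Work.MP_b0b133_an.Radial.Geg

/-!
The quartic form and its invariance.
-/

namespace Pool.Agent.ConeRadial

open Finset MeasureTheory
open scoped Real
open Pool.Agent.ConeG.Rad (Ch cf wt)

/-- integral against `sin^b` on `[0, π]` -/
noncomputable def J (b : ℝ) (φ : ℝ → ℝ) : ℝ := ∫ g in (0 : ℝ)..π, φ g * Real.sin g ^ b

theorem continuous_sin_rpow {b : ℝ} (hb : 0 ≤ b) : Continuous fun g => Real.sin g ^ b :=
  Real.continuous_sin.rpow_const fun _ => Or.inr hb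

theorem J_add {b : ℝ} (hb : 0 ≤ b) {φ ψ : ℝ → ℝ} (hφ : Continuous φ) (hψ : Continuous ψ) :
    J b (fun g => φ g + ψ g) = J b φ + J b ψ := by
  unfold J
  rw [← intervalIntegral.integral_add]
  · refine intervalIntegral.integral_congr fun g _ => ?_
    simp only []
    ring
  · exact (hφ.mul (continuous_sin_rpow hb)).intervalIntegrable _ _
  · exact (hψ.mul (continuous_sin_rpow hb)).intervalIntegrable _ _

theorem J_smul (b c : ℝ) (φ : ℝ → ℝ) : J b (fun g => c * φ g) = c * J b φ := by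
  unfold J
  rw [← intervalIntegral.integral_const_mul]
  refine intervalIntegral.integral_congr fun g _ => ?_
  simp only []
  ring

/-- integration by parts -/
theorem ibp {b : ℝ} (hb : 0 ≤ b) {φ φ' : ℝ → ℝ} (hφ : ∀ x, HasDerivAt φ (φ' x) x)
    (hc : Continuous φ') :
    J b (fun g => (b + 1) * Real.cos g * φ g + Real.sin g * φ' g) = 0 := by
  have hcφ : Continuous φ := continuous_iff_continuousAt.2 fun x => (hφ x).continuousAt
  have h1 : ∀ x ∈ Set.uIcc (0 : ℝ) π, HasDerivAt (fun g => Real.sin g ^ (b + 1) * φ g)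
      (((b + 1) * Real.cos x * φ x + Real.sin x * φ' x) * Real.sin x ^ b) x := by
    intro x hx
    rw [Set.uIcc_of_le Real.pi_pos.le] at hx
    have hs : 0 ≤ Real.sin x := Real.sin_nonneg_of_mem_Icc hx
    have h2 := ((Real.hasDerivAt_sin x).rpow_const (p := b + 1) (Or.inr (by linarith))).mul (hφ x)
    refine h2.congr_deriv ?_
    rw [add_sub_cancel_right, Real.rpow_add_one' hs (by linarith)]
    ring
  have h2 := intervalIntegral.integral_eq_sub_of_hasDerivAt h1 (by
    apply Continuous.intervalIntegrable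
    have := continuous_sin_rpow hb
    have := Real.continuous_sin
    have := Real.continuous_cos
    fun_prop)
  unfold J
  rw [h2]
  simp [Real.zero_rpow (show b + 1 ≠ 0 by linarith)]

/-- the zonal functions on the sphere -/
noncomputable def Y (ν : ℝ) (l : ℕ) (g : ℝ) : ℝ := Ch ν l (Real.cos g)

/-- their derivative -/
noncomputable def dY (ν : ℝ) (l : ℕ) (g : ℝ) : ℝ := dCh ν l (Real.cos g) * (-Real.sin g)

theorem hasDerivAt_Y (ν : ℝ) (l : ℕ) (g : ℝ) : HasDerivAt (Y ν l) (dY ν l g) g :=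
  (hasDerivAt_Ch ν l (Real.cos g)).comp g (Real.hasDerivAt_cos g)

theorem continuous_Y (ν : ℝ) (l : ℕ) : Continuous (Y ν l) :=
  (continuous_Ch ν l).comp Real.continuous_cos

theorem continuous_dY (ν : ℝ) (l : ℕ) : Continuous (dY ν l) :=
  ((continuous_dCh ν l).comp Real.continuous_cos).mul Real.continuous_sin.neg

theorem Y_low {ν : ℝ} (hν : 0 < ν) (l : ℕ) (g : ℝ) :
    (l : ℝ) * Y ν (l - 1) g = l * Real.cos g * Y ν l g - Real.sin g * dY ν l g := by
  cases l with
  | zero =>
    have : dY ν 0 g = 0 := by rw [dY, dCh]; ring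
    rw [this]
    push_cast
    ring
  | succ l =>
    have h := Ch_low hν l (Real.cos g)
    have hs := Real.sin_sq_add_cos_sq g
    rw [Nat.add_sub_cancel]
    unfold Y dY
    push_cast
    have h2 : Real.sin g ^ 2 = 1 - Real.cos g ^ 2 := by linarith
    have h3 : Real.sin g * (dCh ν (l + 1) (Real.cos g) * -Real.sin g) =
        - ((1 - Real.cos g ^ 2) * dCh ν (l + 1) (Real.cos g)) := by rw [← h2]; ring
    rw [h3, h]
    ring

theorem Y_rai {ν : ℝ} (hν : 0 < ν) (l : ℕ) (g : ℝ) :
    (2 * ν + l) * Y ν (l + 1) g =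
      (l + 2 * ν) * Real.cos g * Y ν l g + Real.sin g * dY ν l g := by
  cases l with
  | zero =>
    have h0 : dY ν 0 g = 0 := by rw [dY, dCh]; ring
    rw [h0]
    unfold Y
    rw [Ch_zero, Ch_one]
    push_cast
    ring
  | succ l =>
    have h := Y_low hν (l + 1) g
    rw [Nat.add_sub_cancel] at h
    have h2 := Ch_rec hν l (Real.cos g)
    unfold Y at *
    push_cast at *
    linear_combination h2 - h

/-- the normalisation -/
noncomputable def cst (b : ℝ) : ℝ := (∫ g in (0 : ℝ)..π, Real.sin g ^ b)⁻¹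

/-- the matrix of the quartic form -/
noncomputable def qform (ν : ℝ) : ℕ → ℕ → ℕ → ℕ → ℝ := fun j k j' k' =>
  cst (4 * ν - 2) * J (4 * ν - 2) (fun g => Y ν j g * Y ν k g * (Y ν j' g * Y ν k' g))

theorem qform_sym (ν : ℝ) : Sym (qform ν) := by
  intro j k j' k'
  unfold qform
  congr 2
  ext g
  ring

theorem qform_inv {ν : ℝ} (hν : 1 / 2 ≤ ν) : Inv (2 * ν) (qform ν) := by
  intro j k j' k' h
  have hν0 : 0 < ν := by linarith
  have hb : 0 ≤ 4 * ν - 2 := by linarith
  have cY : ∀ l, Continuous (Y ν l) := fun l => continuous_Y ν l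
  have cdY : ∀ l, Continuous (dY ν l) := fun l => continuous_dY ν l
  have key : (2 * ν + j) * J (4 * ν - 2) (fun g => Y ν (j + 1) g * Y ν k g *
        (Y ν j' g * Y ν k' g)) +
      (2 * ν + k) * J (4 * ν - 2) (fun g => Y ν j g * Y ν (k + 1) g * (Y ν j' g * Y ν k' g)) -
      (j' * J (4 * ν - 2) (fun g => Y ν j g * Y ν k g * (Y ν (j' - 1) g * Y ν k' g)) +
      k' * J (4 * ν - 2) (fun g => Y ν j g * Y ν k g * (Y ν j' g * Y ν (k' - 1) g))) = 0 := by
    rw [← J_smul, ← J_smul, ← J_smul, ← J_smul, ← J_add hb (by fun_prop) (by fun_prop),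
      ← J_add hb (by fun_prop) (by fun_prop), sub_eq_add_neg, ← neg_one_mul (J _ _), ← J_smul,
      ← J_add hb (by fun_prop) (by fun_prop)]
    have hd : ∀ x, HasDerivAt (fun g => Y ν j g * Y ν k g * (Y ν j' g * Y ν k' g))
        ((dY ν j x * Y ν k x + Y ν j x * dY ν k x) * (Y ν j' x * Y ν k' x) +
          Y ν j x * Y ν k x * (dY ν j' x * Y ν k' x + Y ν j' x * dY ν k' x)) x := fun x =>
      ((hasDerivAt_Y ν j x).mul (hasDerivAt_Y ν k x)).mul
        ((hasDerivAt_Y ν j' x).mul (hasDerivAt_Y ν k' x))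
    have h0 := ibp hb hd (by fun_prop)
    rw [← h0]
    unfold J
    refine intervalIntegral.integral_congr fun g _ => ?_
    simp only []
    have r1 := Y_rai hν0 j g
    have r2 := Y_rai hν0 k g
    have l1 := Y_low hν0 j' g
    have l2 := Y_low hν0 k' g
    have h3 : (j' : ℝ) + k' = j + k + 1 := by exact_mod_cast h
    congr 1
    linear_combination (Y ν k g * (Y ν j' g * Y ν k' g)) * r1 +
      (Y ν j g * (Y ν j' g * Y ν k' g)) * r2 - (Y ν j g * Y ν k g * Y ν k' g) * l1 -
      (Y ν j g * Y ν k g * Y ν j' g) * l2 -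
      Real.cos g * (Y ν j g * Y ν k g * (Y ν j' g * Y ν k' g)) * h3
  unfold qform
  linear_combination cst (4 * ν - 2) * key

end Pool.Agent.ConeRadial
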