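import Mathlib
import Pool.Agent.Work.MP_b0b133_an.Radial.Form

/-!
The image of the primitive vectors: `ψ_m = C_m sin^m`.
-/

namespace Pool.Agent.ConeRadial

open Finset MeasureTheory
open scoped Real
open Pool.Agent.ConeG.Rad (Ch cf wt)

/-- image of a tensor -/
noncomputable def img (ν : ℝ) (m : ℕ) (x : ℕ → ℕ → ℝ) (g : ℝ) : ℝ :=
  ∑ p ∈ antidiagonal m, x p.1 p.2 * (Y ν p.1 g * Y ν p.2 g)

theorem continuous_img (ν : ℝ) (m : ℕ) (x : ℕ → ℕ → ℝ) : Continuous (img ν m x) := by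
  unfold img
  refine continuous_finset_sum _ fun p _ => ?_
  exact continuous_const.mul ((continuous_Y ν _).mul (continuous_Y ν _))

theorem J_sum {b : ℝ} (hb : 0 ≤ b) {ι : Type*} (s : Finset ι) (φ : ι → ℝ → ℝ)
    (hφ : ∀ i ∈ s, Continuous (φ i)) :
    J b (fun g => ∑ i ∈ s, φ i g) = ∑ i ∈ s, J b (φ i) := by
  unfold J
  rw [← intervalIntegral.integral_finsetSum]
  · refine intervalIntegral.integral_congr fun g _ => ?_
    simp only [sum_mul]
  · intro i hi
    exact ((hφ i hi).mul (continuous_sin_rpow hb)).intervalIntegrable _ _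

theorem frm_qform {ν : ℝ} (hν : 1 / 2 ≤ ν) (m : ℕ) (x y : ℕ → ℕ → ℝ) :
    frm (qform ν) m x y = cst (4 * ν - 2) * J (4 * ν - 2) (fun g => img ν m x g * img ν m y g) := by
  have hb : 0 ≤ 4 * ν - 2 := by linarith
  have cY : ∀ l, Continuous (Y ν l) := fun l => continuous_Y ν l
  have h1 : (fun g => img ν m x g * img ν m y g) = fun g => ∑ p ∈ antidiagonal m,
      ∑ q ∈ antidiagonal m, x p.1 p.2 * y q.1 q.2 *
        (Y ν p.1 g * Y ν p.2 g * (Y ν q.1 g * Y ν q.2 g)) := by
    ext g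
    unfold img
    rw [sum_mul_sum]
    refine sum_congr rfl fun p _ => sum_congr rfl fun q _ => ?_
    ring
  rw [h1, J_sum hb]
  · unfold frm
    rw [mul_sum]
    refine sum_congr rfl fun p _ => ?_
    rw [J_sum hb, mul_sum]
    · refine sum_congr rfl fun q _ => ?_
      rw [J_smul]
      unfold qform
      ring
    · intro q _
      fun_prop
  · intro p _
    refine continuous_finset_sum _ fun q _ => ?_
    fun_prop

/-- derivative of the image of the primitive vector -/
noncomputable def dimg (ν : ℝ) (m : ℕ) (x : ℕ → ℕ → ℝ) (g : ℝ) : ℝ :=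
  ∑ p ∈ antidiagonal m, x p.1 p.2 * (dY ν p.1 g * Y ν p.2 g + Y ν p.1 g * dY ν p.2 g)

theorem hasDerivAt_img (ν : ℝ) (m : ℕ) (x : ℕ → ℕ → ℝ) (g : ℝ) :
    HasDerivAt (img ν m x) (dimg ν m x g) g := by
  unfold img dimg
  exact HasDerivAt.fun_sum fun p _ =>
    ((hasDerivAt_Y ν p.1 g).mul (hasDerivAt_Y ν p.2 g)).const_mul (x p.1 p.2)

theorem ode_img {ν : ℝ} (hν : 0 < ν) (m : ℕ) (g : ℝ) :
    Real.sin g * dimg ν m prim g = m * Real.cos g * img ν m prim g := by
  have h1 : ∑ q ∈ antidiagonal m, prim q.1 q.2 *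
      (q.1 * (Y ν (q.1 - 1) g * Y ν q.2 g) + q.2 * (Y ν q.1 g * Y ν (q.2 - 1) g)) = 0 := by
    cases m with
    | zero => simp
    | succ m =>
      rw [sum_low prim (fun j k => Y ν j g * Y ν k g) m]
      refine sum_eq_zero fun q _ => ?_
      rw [low_prim, zero_mul]
  have h2 : ∀ q ∈ antidiagonal m, prim q.1 q.2 *
      (q.1 * (Y ν (q.1 - 1) g * Y ν q.2 g) + q.2 * (Y ν q.1 g * Y ν (q.2 - 1) g)) =
      m * Real.cos g * (prim q.1 q.2 * (Y ν q.1 g * Y ν q.2 g)) - Real.sin g *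
        (prim q.1 q.2 * (dY ν q.1 g * Y ν q.2 g + Y ν q.1 g * dY ν q.2 g)) := by
    intro q hq
    rw [HasAntidiagonal.mem_antidiagonal] at hq
    have h3 : (m : ℝ) = (q.1 : ℝ) + q.2 := by rw [← hq]; push_cast; ring
    have l1 := Y_low hν q.1 g
    have l2 := Y_low hν q.2 g
    rw [h3]
    linear_combination (prim q.1 q.2 * Y ν q.2 g) * l1 + (prim q.1 q.2 * Y ν q.1 g) * l2
  rw [sum_congr rfl h2, sum_sub_distrib, ← mul_sum, ← mul_sum] at h1
  unfold img dimg
  linarith

theorem img_prim {ν : ℝ} (hν : 0 < ν) (m : ℕ) (g : ℝ) (hg : g ∈ Set.Icc 0 π) :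
    img ν m prim g = img ν m prim (π / 2) * Real.sin g ^ m := by
  rcases eq_or_ne m 0 with rfl | hm
  · simp [img, Y, Ch_zero]
  have hend : ∀ x, Real.sin x = 0 → img ν m prim x = 0 := by
    intro x hx
    have h1 := ode_img hν m x
    rw [hx, zero_mul] at h1
    have h2 : Real.cos x ≠ 0 := by
      intro h
      have := Real.sin_sq_add_cos_sq x
      rw [hx, h] at this
      norm_num at this
    have h3 : (m : ℝ) ≠ 0 := Nat.cast_ne_zero.2 hm
    have := h1.symm
    simpa [h2, h3] using this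
  by_cases hs : Real.sin g = 0
  · rw [hend g hs, hs, zero_pow hm, mul_zero]
  · have hg' : g ∈ Set.Ioo 0 π := by
      refine ⟨lt_of_le_of_ne hg.1 ?_, lt_of_le_of_ne hg.2 ?_⟩
      · rintro rfl
        exact hs Real.sin_zero
      · rintro rfl
        exact hs Real.sin_pi
    have hd : ∀ x ∈ Set.Ioo (0 : ℝ) π,
        HasDerivAt (fun g => img ν m prim g / Real.sin g ^ m) 0 x := by
      intro x hx
      have hsx : Real.sin x ≠ 0 := (Real.sin_pos_of_mem_Ioo hx).ne'
      have h1 := (hasDerivAt_img ν m prim x).div ((Real.hasDerivAt_sin x).pow m)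
        (pow_ne_zero m hsx)
      refine h1.congr_deriv ?_
      have h2 := ode_img hν m x
      obtain ⟨n, rfl⟩ := Nat.exists_eq_succ_of_ne_zero hm
      rw [div_eq_zero_iff]
      left
      simp only [Nat.succ_eq_add_one, Nat.add_sub_cancel, Pi.pow_apply] at *
      rw [pow_succ]
      linear_combination (Real.sin x ^ n) * h2
    have hmid : π / 2 ∈ Set.Ioo (0 : ℝ) π := ⟨by linarith [Real.pi_pos], by linarith [Real.pi_pos]⟩
    have h1 : img ν m prim g / Real.sin g ^ m = img ν m prim (π / 2) / Real.sin (π / 2) ^ m :=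
      IsOpen.is_const_of_deriv_eq_zero (f := fun g => img ν m prim g / Real.sin g ^ m)
        (s := Set.Ioo (0 : ℝ) π) isOpen_Ioo isPreconnected_Ioo
        (fun x hx => (hd x hx).differentiableAt.differentiableWithinAt)
        (fun x hx => (hd x hx).deriv) hg' hmid
    rw [Real.sin_pi_div_two, one_pow, div_one] at h1
    rw [← h1, div_mul_cancel₀ _ (pow_ne_zero m hs)]

end Pool.Agent.ConeRadial
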