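import Mathlib
import Pool.Agent.Work.MP_b0b133_an.Radial.Prim

/-!
The value of the quartic form on the primitive vectors.
-/

namespace Pool.Agent.ConeRadial

open Finset MeasureTheory
open scoped Real
open Pool.Agent.ConeG.Rad (Ch cf wt)

theorem Ch_at_zero_rec {ν : ℝ} (hν : 0 < ν) (l : ℕ) :
    (l + 1 + 2 * ν) * Ch ν (l + 2) 0 = - ((l + 1) * Ch ν l 0) := by
  have := Ch_rec hν l 0
  rw [this]
  ring

theorem Ch_odd {ν : ℝ} (hν : 0 < ν) (i : ℕ) : Ch ν (2 * i + 1) 0 = 0 := by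
  induction i with
  | zero => rw [Ch]
  | succ i ih =>
    have h := Ch_at_zero_rec hν (2 * i + 1)
    rw [ih, mul_zero, neg_zero] at h
    have h2 : ((2 * i + 1 : ℕ) : ℝ) + 1 + 2 * ν ≠ 0 := by positivity
    rcases mul_eq_zero.1 h with h3 | h3
    · exact absurd h3 h2
    · exact h3

theorem Ch_even {ν : ℝ} (hν : 0 < ν) (i : ℕ) :
    Ch ν (2 * i) 0 = (-1) ^ i * ph (1 / 2) i / ph (ν + 1 / 2) i := by
  induction i with
  | zero => simp [Ch_zero, ph_zero]
  | succ i ih =>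
    have h := Ch_at_zero_rec hν (2 * i)
    rw [ih] at h
    have h2 : ((2 * i : ℕ) : ℝ) + 1 + 2 * ν ≠ 0 := by positivity
    have h3 := (ph_pos (show 0 < ν + 1 / 2 by linarith) i).ne'
    have h4 : ν + 1 / 2 + i ≠ 0 := by positivity
    rw [show 2 * (i + 1) = 2 * i + 2 by ring, ph_succ, ph_succ, pow_succ]
    apply mul_left_cancel₀ h2
    rw [h]
    push_cast
    field_simp
    ring

theorem sum_range_even (g : ℕ → ℝ) (hg : ∀ i, g (2 * i + 1) = 0) (n : ℕ) :
    ∑ k ∈ range (2 * n + 1), g k = ∑ i ∈ range (n + 1), g (2 * i) := by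
  induction n with
  | zero => simp
  | succ n ih =>
    rw [show 2 * (n + 1) + 1 = (2 * n + 1) + 1 + 1 by ring, sum_range_succ, sum_range_succ, ih,
      sum_range_succ _ (n + 1), hg, add_zero]
    rfl

theorem sum_antidiagonal_even (f : ℕ → ℕ → ℝ) (hf : ∀ i k, f (2 * i + 1) k = 0) (n : ℕ) :
    ∑ p ∈ antidiagonal (2 * n), f p.1 p.2 = ∑ q ∈ antidiagonal n, f (2 * q.1) (2 * q.2) := by
  rw [Nat.sum_antidiagonal_eq_sum_range_succ f (2 * n),
    Nat.sum_antidiagonal_eq_sum_range_succ (fun i l => f (2 * i) (2 * l)) n,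
    Nat.succ_eq_add_one, sum_range_even (fun k => f k (2 * n - k)) (fun i => hf i _) n]
  refine sum_congr rfl fun i _ => ?_
  rw [Nat.mul_sub]

theorem ph_half (n : ℕ) : ph (1 / 2) n * (4 ^ n * (n.factorial : ℝ)) = ((2 * n).factorial : ℝ) := by
  induction n with
  | zero => simp [ph_zero]
  | succ n ih =>
    rw [ph_succ, show 2 * (n + 1) = (2 * n + 1) + 1 by ring, Nat.factorial_succ, Nat.factorial_succ,
      Nat.factorial_succ]
    push_cast
    rw [← ih]
    ring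

theorem choose_half (i l : ℕ) : ((2 * i + 2 * l).choose (2 * i) : ℝ) * (ph (1 / 2) i * ph (1 / 2) l)
    = ph (1 / 2) (i + l) * ((i + l).choose i : ℝ) := by
  have h1 := ph_half i
  have h2 := ph_half l
  have h3 := ph_half (i + l)
  have c1 : ((2 * i + 2 * l).choose (2 * i) : ℝ) * ((2 * i).factorial * (2 * l).factorial) =
      ((2 * (i + l)).factorial : ℝ) := by
    have := Nat.add_choose_mul_factorial_mul_factorial (2 * i) (2 * l)
    rw [← Nat.choose_symm_add, ← mul_add] at this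
    rw [← mul_add, ← mul_assoc]
    exact_mod_cast this
  have c2 : ((i + l).choose i : ℝ) * (i.factorial * l.factorial) = ((i + l).factorial : ℝ) := by
    have := Nat.add_choose_mul_factorial_mul_factorial i l
    rw [← Nat.choose_symm_add] at this
    rw [← mul_assoc]
    exact_mod_cast this
  have p1 : (i.factorial : ℝ) ≠ 0 := by positivity
  have p2 : (l.factorial : ℝ) ≠ 0 := by positivity
  have p3 : ((4 : ℝ) ^ (i + l)) ≠ 0 := by positivity
  rw [← h1, ← h2, ← h3, ← c2] at c1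
  have p4 : (4 : ℝ) ^ (i + l) * (i.factorial * l.factorial) ≠ 0 := by positivity
  apply mul_right_cancel₀ p4
  rw [pow_add] at *
  linear_combination c1

theorem img_prim_odd {ν : ℝ} (hν : 0 < ν) (n : ℕ) : img ν (2 * n + 1) prim (π / 2) = 0 := by
  unfold img
  refine sum_eq_zero fun p hp => ?_
  rw [HasAntidiagonal.mem_antidiagonal] at hp
  unfold Y
  rw [Real.cos_pi_div_two]
  rcases Nat.even_or_odd' p.1 with ⟨i, hi | hi⟩
  · obtain ⟨l, hl⟩ : ∃ l, p.2 = 2 * l + 1 := ⟨n - i, by omega⟩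
    rw [hl, Ch_odd hν]
    ring
  · rw [hi, Ch_odd hν]
    ring

theorem img_prim_even {ν : ℝ} (hν : 0 < ν) (n : ℕ) : img ν (2 * n) prim (π / 2) =
    (-1) ^ n * (ph (1 / 2) n * ph (2 * ν + n) n / (ph (ν + 1 / 2) n) ^ 2) := by
  unfold img
  simp only [Y, Real.cos_pi_div_two]
  rw [sum_antidiagonal_even (fun j k => prim j k * (Ch ν j 0 * Ch ν k 0)) (by
    intro i k
    rw [Ch_odd hν]
    ring)]
  have h1 : ∀ q ∈ antidiagonal n, prim (2 * q.1) (2 * q.2) * (Ch ν (2 * q.1) 0 *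
      Ch ν (2 * q.2) 0) = (-1) ^ n * ph (1 / 2) n *
      ((n.choose q.1 : ℝ) * (1 / (ph (ν + 1 / 2) q.1 * ph (ν + 1 / 2) q.2))) := by
    intro q hq
    rw [HasAntidiagonal.mem_antidiagonal] at hq
    rw [Ch_even hν, Ch_even hν, prim]
    have h2 := choose_half q.1 q.2
    rw [hq] at h2
    have h3 := (ph_pos (show 0 < ν + 1 / 2 by linarith) q.1).ne'
    have h4 := (ph_pos (show 0 < ν + 1 / 2 by linarith) q.2).ne'
    have h5 : (-1 : ℝ) ^ (2 * q.2) = 1 := by rw [pow_mul]; norm_num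
    have h6 : (-1 : ℝ) ^ n = (-1) ^ q.1 * (-1) ^ q.2 := by rw [← pow_add, hq]
    rw [h5, h6]
    generalize ph (ν + 1 / 2) q.1 = P1 at *
    generalize ph (ν + 1 / 2) q.2 = P2 at *
    rw [show 1 * ((2 * q.1 + 2 * q.2).choose (2 * q.1) : ℝ) * ((-1) ^ q.1 * ph (1 / 2) q.1 / P1 *
      ((-1) ^ q.2 * ph (1 / 2) q.2 / P2)) = ((-1) ^ q.1 * (-1) ^ q.2) *
      (((2 * q.1 + 2 * q.2).choose (2 * q.1) : ℝ) * (ph (1 / 2) q.1 * ph (1 / 2) q.2)) *
      (1 / (P1 * P2)) by field_simp, h2]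
    ring
  rw [sum_congr rfl h1, ← mul_sum, vand n _ _ (by linarith) (by linarith)]
  have e1 : ν + 1 / 2 + (ν + 1 / 2) + n - 1 = 2 * ν + n := by ring
  rw [e1]
  ring

end Pool.Agent.ConeRadial
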