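import Mathlib
import Pool.Agent.Work.MP_b0b133_an.Radial.Val

/-!
The ratios `κ_{2n}` of the quartic form on the primitive vectors and `κ_{2n} ≤ κ_2`.
-/

namespace Pool.Agent.ConeRadial

open Finset MeasureTheory
open scoped Real
open Pool.Agent.ConeG.Rad (Ch cf wt)

theorem cf_eq (ν : ℝ) (l : ℕ) : cf ν l = ph (2 * ν) l / l.factorial := by
  induction l with
  | zero => simp [cf, ph_zero]
  | succ l ih =>
    have h : cf ν (l + 1) = cf ν l * ((2 * ν + l) / (l + 1)) := by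
      rw [cf, prod_range_succ]; rfl
    rw [h, ih, ph_succ, Nat.factorial_succ]
    push_cast
    have : (l.factorial : ℝ) ≠ 0 := by positivity
    have : ((l : ℝ) + 1) ≠ 0 := by positivity
    field_simp

theorem wt_eq (ν : ℝ) (l : ℕ) : wt ν l = l.factorial / ph (2 * ν) l := by
  rw [wt, cf_eq, inv_div]

theorem wt_pos {ν : ℝ} (hν : 0 < ν) (l : ℕ) : 0 < wt ν l := by
  rw [wt_eq]
  have := ph_pos (show 0 < 2 * ν by linarith) l
  positivity

theorem wt_rec {ν : ℝ} (hν : 0 < ν) (l : ℕ) :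
    (2 * ν + l) * wt ν (l + 1) = (l + 1) * wt ν l := by
  rw [wt_eq, wt_eq, ph_succ, Nat.factorial_succ]
  have h1 := (ph_pos (show 0 < 2 * ν by linarith) l).ne'
  have h2 : 2 * ν + l ≠ 0 := by positivity
  push_cast
  field_simp

theorem np_eq {ν : ℝ} (hν : 0 < ν) (m : ℕ) : frm (nform (wt ν)) m prim prim =
    m.factorial * (ph (4 * ν + m - 1) m / (ph (2 * ν) m * ph (2 * ν) m)) := by
  rw [frm_nform]
  have h1 : ∀ p ∈ antidiagonal m, prim p.1 p.2 * prim p.1 p.2 * (wt ν p.1 * wt ν p.2) =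
      m.factorial * ((m.choose p.1 : ℝ) * (1 / (ph (2 * ν) p.1 * ph (2 * ν) p.2))) := by
    intro p hp
    rw [HasAntidiagonal.mem_antidiagonal] at hp
    rw [prim, wt_eq, wt_eq, hp]
    have h3 : (m.choose p.1 : ℝ) * (p.1.factorial * p.2.factorial) = (m.factorial : ℝ) := by
      have := Nat.add_choose_mul_factorial_mul_factorial p.1 p.2
      rw [← Nat.choose_symm_add, hp] at this
      rw [← mul_assoc]
      exact_mod_cast this
    have h5 : (-1 : ℝ) ^ p.2 * (-1) ^ p.2 = 1 := by rw [← mul_pow]; norm_num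
    rw [← h3]
    have h6 : (-1 : ℝ) ^ p.2 * (m.choose p.1 : ℝ) * ((-1) ^ p.2 * (m.choose p.1 : ℝ)) =
        ((-1 : ℝ) ^ p.2 * (-1) ^ p.2) * (m.choose p.1 : ℝ) ^ 2 := by ring
    rw [h6, h5]
    ring
  rw [sum_congr rfl h1, ← mul_sum, vand m _ _ (by linarith) (by linarith)]
  have e1 : 2 * ν + 2 * ν + m - 1 = 4 * ν + m - 1 := by ring
  rw [e1]

/-- moments of `sin ^ 2` -/
noncomputable def mom (b : ℝ) (m : ℕ) : ℝ := cst b * J b (fun g => Real.sin g ^ (2 * m))

theorem J_one_pos {b : ℝ} (hb : 0 ≤ b) : 0 < ∫ g in (0 : ℝ)..π, Real.sin g ^ b := by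
  apply intervalIntegral.intervalIntegral_pos_of_pos_on
  · exact (continuous_sin_rpow hb).intervalIntegrable _ _
  · intro x hx
    exact Real.rpow_pos_of_pos (Real.sin_pos_of_mem_Ioo hx) _
  · exact Real.pi_pos

theorem mom_zero {b : ℝ} (hb : 0 ≤ b) : mom b 0 = 1 := by
  unfold mom cst J
  simp only [mul_zero, pow_zero, one_mul]
  exact inv_mul_cancel₀ (J_one_pos hb).ne'

theorem mom_succ {b : ℝ} (hb : 0 ≤ b) (m : ℕ) :
    (b + 2 * m + 2) * mom b (m + 1) = (b + 2 * m + 1) * mom b m := by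
  have hd : ∀ x, HasDerivAt (fun g => Real.cos g * Real.sin g ^ (2 * m))
      (-Real.sin x * Real.sin x ^ (2 * m) +
        Real.cos x * ((2 * m : ℕ) * Real.sin x ^ (2 * m - 1) * Real.cos x)) x := fun x =>
    (Real.hasDerivAt_cos x).mul ((Real.hasDerivAt_sin x).pow (2 * m))
  have h0 := ibp hb hd (by
    have := Real.continuous_sin
    have := Real.continuous_cos
    fun_prop)
  have h1 : (fun g => (b + 1) * Real.cos g * (Real.cos g * Real.sin g ^ (2 * m)) + Real.sin g *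
      (-Real.sin g * Real.sin g ^ (2 * m) +
        Real.cos g * ((2 * m : ℕ) * Real.sin g ^ (2 * m - 1) * Real.cos g))) =
      fun g => (b + 2 * m + 1) * Real.sin g ^ (2 * m) +
        (-(b + 2 * m + 2)) * Real.sin g ^ (2 * (m + 1)) := by
    ext g
    have h2 : Real.cos g ^ 2 = 1 - Real.sin g ^ 2 := by
      have := Real.sin_sq_add_cos_sq g
      linarith
    have h3 : Real.sin g * (((2 * m : ℕ) : ℝ) * Real.sin g ^ (2 * m - 1)) =
        2 * m * Real.sin g ^ (2 * m) := by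
      cases m with
      | zero => simp
      | succ m =>
        rw [show 2 * (m + 1) - 1 = 2 * m + 1 by omega, show 2 * (m + 1) = 2 * m + 1 + 1 by ring,
          pow_succ _ (2 * m + 1)]
        push_cast
        ring
    have h4 : Real.sin g * (Real.cos g * ((2 * m : ℕ) * Real.sin g ^ (2 * m - 1) * Real.cos g)) =
        Real.cos g ^ 2 * (2 * m * Real.sin g ^ (2 * m)) := by
      rw [← h3]
      ring
    rw [mul_add (Real.sin g), h4, h2, show 2 * (m + 1) = 2 * m + 2 by ring, pow_add]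
    have h5 : (b + 1) * Real.cos g * (Real.cos g * Real.sin g ^ (2 * m)) =
        (b + 1) * (1 - Real.sin g ^ 2) * Real.sin g ^ (2 * m) := by
      rw [← h2]
      ring
    rw [h5]
    ring
  rw [h1, J_add hb (by have := Real.continuous_sin; fun_prop)
    (by have := Real.continuous_sin; fun_prop), J_smul, J_smul] at h0
  unfold mom
  linear_combination -cst b * h0

theorem ph_shift {x : ℝ} (hx : 0 < x) (n : ℕ) :
    ph (x + 1) (n + 1) = ph x n * ((x + n) * (x + n + 1) / x) := by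
  have h1 := ph_succ' x (n + 1)
  have h2 := ph_succ x (n + 1)
  have h3 := ph_succ x n
  rw [h1] at h2
  rw [h3] at h2
  push_cast at h2
  have hx' := hx.ne'
  field_simp
  linear_combination h2

theorem ph_shift2 {x : ℝ} (hx : 0 < x) (m : ℕ) :
    ph (x + 2) (m + 2) =
      ph x m * ((x + m) * (x + m + 1) * (x + m + 2) * (x + m + 3) / (x * (x + 1))) := by
  have h1 := ph_shift (show 0 < x + 1 by linarith) (m + 1)
  have h2 := ph_shift hx m
  rw [show x + 2 = x + 1 + 1 by ring, h1, h2]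
  push_cast
  have hx' := hx.ne'
  have hx2 : x + 1 ≠ 0 := by positivity
  field_simp
  ring

/-- the square root of the value on the primitive vector -/
noncomputable def cc (ν : ℝ) (n : ℕ) : ℝ := ph (1 / 2) n * ph (2 * ν + n) n / (ph (ν + 1 / 2) n) ^ 2

theorem cc_zero (ν : ℝ) : cc ν 0 = 1 := by simp [cc, ph_zero]

theorem cc_succ {ν : ℝ} (hν : 0 < ν) (n : ℕ) :
    cc ν (n + 1) = cc ν n * (4 * (2 * n + 1) * (ν + n) / ((2 * ν + n) * (2 * ν + 2 * n + 1))) := by
  unfold cc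
  have h1 := ph_shift (show 0 < 2 * ν + n by positivity) n
  have e1 : 2 * ν + ((n + 1 : ℕ) : ℝ) = 2 * ν + n + 1 := by push_cast; ring
  rw [e1, h1, ph_succ, ph_succ]
  have p1 : 2 * ν + (n : ℝ) ≠ 0 := by positivity
  have p2 : 2 * ν + 2 * (n : ℝ) + 1 ≠ 0 := by positivity
  have p3 := (ph_pos (show 0 < ν + 1 / 2 by linarith) n).ne'
  have p4 : ν + 1 / 2 + (n : ℝ) = (2 * ν + 2 * n + 1) / 2 := by ring
  rw [p4]
  generalize ph (ν + 1 / 2) n = P at *
  generalize ph (1 / 2) n = P' at *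
  generalize ph (2 * ν + ↑n) n = P'' at *
  field_simp
  ring

/-- norm of the primitive vector -/
noncomputable def np (ν : ℝ) (m : ℕ) : ℝ :=
  m.factorial * (ph (4 * ν + m - 1) m / (ph (2 * ν) m * ph (2 * ν) m))

theorem np_zero (ν : ℝ) : np ν 0 = 1 := by simp [np, ph_zero]

theorem np_two {ν : ℝ} (hν : 1 / 2 ≤ ν) (n : ℕ) : np ν (2 * (n + 1)) = np ν (2 * n) *
    (((2 * n + 1) * (2 * n + 2)) * ((4 * ν + 4 * n - 1) * (4 * ν + 4 * n) * (4 * ν + 4 * n + 1) *
      (4 * ν + 4 * n + 2) / ((4 * ν + 2 * n - 1) * (4 * ν + 2 * n))) /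
      ((2 * ν + 2 * n) * (2 * ν + 2 * n + 1)) ^ 2) := by
  unfold np
  have hx : 0 < 4 * ν + 2 * (n : ℝ) - 1 := by
    have : (0 : ℝ) ≤ n := Nat.cast_nonneg n
    linarith
  have h1 := ph_shift2 hx (2 * n)
  have e1 : 4 * ν + ((2 * (n + 1) : ℕ) : ℝ) - 1 = 4 * ν + 2 * n - 1 + 2 := by push_cast; ring
  have e2 : 4 * ν + ((2 * n : ℕ) : ℝ) - 1 = 4 * ν + 2 * n - 1 := by push_cast; ring
  rw [e1, e2, show 2 * (n + 1) = 2 * n + 2 by ring, h1]
  have h2 : ph (2 * ν) (2 * n + 2) = ph (2 * ν) (2 * n) * ((2 * ν + 2 * n) * (2 * ν + 2 * n + 1)) := by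
    rw [ph_succ, ph_succ]
    push_cast
    ring
  have h3 : ((2 * n + 2).factorial : ℝ) = (2 * n).factorial * ((2 * n + 1) * (2 * n + 2)) := by
    rw [Nat.factorial_succ, Nat.factorial_succ]
    push_cast
    ring
  rw [h2, h3]
  have p1 := (ph_pos (show 0 < 2 * ν by linarith) (2 * n)).ne'
  have hν0 : 0 < ν := by linarith
  have p2 : 2 * ν + 2 * (n : ℝ) ≠ 0 := by positivity
  have p3 : 2 * ν + 2 * (n : ℝ) + 1 ≠ 0 := by positivity
  have p4 : 4 * ν + 2 * (n : ℝ) ≠ 0 := by positivity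
  have p5 := hx.ne'
  push_cast
  generalize ph (2 * ν) (2 * n) = P at *
  generalize ph (4 * ν + 2 * ↑n - 1) (2 * n) = P' at *
  rw [show 4 * ν + 2 * (n : ℝ) - 1 + 1 = 4 * ν + 2 * n by ring]
  field_simp
  ring

theorem mom_two {ν : ℝ} (hν : 1 / 2 ≤ ν) (n : ℕ) : mom (4 * ν - 2) (2 * (n + 1)) =
    mom (4 * ν - 2) (2 * n) * ((4 * ν + 4 * n - 1) * (4 * ν + 4 * n + 1) /
      ((4 * ν + 4 * n) * (4 * ν + 4 * n + 2))) := by
  have hb : 0 ≤ 4 * ν - 2 := by linarith
  have h1 := mom_succ hb (2 * n)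
  have h2 := mom_succ hb (2 * n + 1)
  rw [show 2 * (n + 1) = 2 * n + 1 + 1 by ring]
  push_cast at h1 h2
  have hν0 : 0 < ν := by linarith
  have p1 : 4 * ν + 4 * (n : ℝ) ≠ 0 := by positivity
  have p2 : 4 * ν + 4 * (n : ℝ) + 2 ≠ 0 := by positivity
  rw [← mul_div_assoc, eq_div_iff (mul_ne_zero p1 p2)]
  linear_combination (4 * ν + 4 * n) * h2 + (4 * ν + 4 * n + 1) * h1

theorem np_pos {ν : ℝ} (hν : 0 < ν) (m : ℕ) : 0 < np ν m := by
  have := prim_nform_pos (wt_pos hν) m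
  rwa [np_eq hν] at this

/-- the ratio `κ_{2n}` -/
noncomputable def kap (ν : ℝ) (n : ℕ) : ℝ := cc ν n ^ 2 * mom (4 * ν - 2) (2 * n) / np ν (2 * n)

theorem kap_zero {ν : ℝ} (hν : 1 / 2 ≤ ν) : kap ν 0 = 1 := by
  unfold kap
  rw [cc_zero, mul_zero, mom_zero (by linarith), np_zero]
  norm_num

theorem kap_succ {ν : ℝ} (hν : 1 / 2 ≤ ν) (n : ℕ) : kap ν (n + 1) = kap ν n *
    ((2 * n + 1) * (ν + n) ^ 2 * (4 * ν + 2 * n - 1) /
      ((2 * ν + n) * (2 * ν + 2 * n + 1) ^ 2 * (n + 1))) := by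
  unfold kap
  have hν0 : 0 < ν := by linarith
  have hn : (0 : ℝ) ≤ n := Nat.cast_nonneg n
  rw [cc_succ hν0, np_two hν, mom_two hν]
  have p0 := (np_pos hν0 (2 * n)).ne'
  have p1 : 2 * ν + (n : ℝ) ≠ 0 := by positivity
  have p2 : 2 * ν + 2 * (n : ℝ) + 1 ≠ 0 := by positivity
  have p3 : 4 * ν + 2 * (n : ℝ) - 1 ≠ 0 := by linarith
  have p4 : 4 * ν + 4 * (n : ℝ) - 1 ≠ 0 := by linarith
  have p5 : 4 * ν + 4 * (n : ℝ) + 1 ≠ 0 := by positivity
  have p6 : (n : ℝ) + 1 ≠ 0 := by positivity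
  have p7 : ν + (n : ℝ) ≠ 0 := by positivity
  have p8 : 2 * (n : ℝ) + 1 ≠ 0 := by positivity
  have e1 : 4 * ν + 4 * (n : ℝ) = 4 * (ν + n) := by ring
  have e2 : 4 * ν + 4 * (n : ℝ) + 2 = 2 * (2 * ν + 2 * n + 1) := by ring
  have e3 : 2 * ν + 2 * (n : ℝ) = 2 * (ν + n) := by ring
  have e4 : 4 * ν + 2 * (n : ℝ) = 2 * (2 * ν + n) := by ring
  have e5 : 2 * (n : ℝ) + 2 = 2 * (n + 1) := by ring
  generalize np ν (2 * n) = A at *
  generalize mom (4 * ν - 2) (2 * n) = B at *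
  generalize cc ν n = C at *
  rw [div_eq_iff]
  · field_simp
    ring
  · have p9 : 4 * ν + 4 * (n : ℝ) ≠ 0 := by positivity
    have p10 : 4 * ν + 4 * (n : ℝ) + 2 ≠ 0 := by positivity
    have p11 : 2 * ν + 2 * (n : ℝ) ≠ 0 := by positivity
    have p12 : 4 * ν + 2 * (n : ℝ) ≠ 0 := by positivity
    have p13 : 2 * (n : ℝ) + 2 ≠ 0 := by positivity
    simp [p0, p2, p3, p4, p5, p8, p9, p10, p11, p12, p13]

theorem kap_one {ν : ℝ} (hν : 1 / 2 ≤ ν) :
    kap ν 1 = ν * (4 * ν - 1) / (2 * (2 * ν + 1) ^ 2) := by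
  have h := kap_succ hν 0
  rw [kap_zero hν, zero_add] at h
  rw [h]
  have hν0 : 0 < ν := by linarith
  have : 2 * ν + 1 ≠ 0 := by positivity
  push_cast
  field_simp
  ring

theorem kap_nonneg {ν : ℝ} (hν : 1 / 2 ≤ ν) (n : ℕ) : 0 ≤ kap ν n := by
  unfold kap
  have hν0 : 0 < ν := by linarith
  have h1 : 0 ≤ mom (4 * ν - 2) (2 * n) := by
    unfold mom cst J
    apply mul_nonneg (inv_nonneg.2 (J_one_pos (by linarith)).le)
    apply intervalIntegral.integral_nonneg Real.pi_pos.le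
    intro x hx
    exact mul_nonneg (pow_nonneg (Real.sin_nonneg_of_mem_Icc hx) _)
      (Real.rpow_nonneg (Real.sin_nonneg_of_mem_Icc hx) _)
  exact div_nonneg (mul_nonneg (sq_nonneg _) h1) (np_pos hν0 _).le

theorem kap_le {ν : ℝ} (hν : 1 / 2 ≤ ν) (n : ℕ) : kap ν (n + 1) ≤ kap ν 1 := by
  induction n with
  | zero => exact le_refl _
  | succ n ih =>
    refine le_trans ?_ ih
    rw [kap_succ hν (n + 1)]
    apply mul_le_of_le_one_right (kap_nonneg hν _)
    have hν0 : 0 < ν := by linarith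
    push_cast
    rw [div_le_one (by positivity)]
    have h0 : (0 : ℝ) ≤ n := Nat.cast_nonneg n
    generalize (n : ℝ) = x at *
    have h1 : (2 * (x + 1) + 1) * (4 * ν + 2 * (x + 1) - 1) ≤ 4 * (x + 1 + 1) * (2 * ν + (x + 1)) := by
      nlinarith
    have h2 : 4 * (ν + (x + 1)) ^ 2 ≤ (2 * ν + 2 * (x + 1) + 1) ^ 2 := by nlinarith
    have h3 : 0 ≤ (2 * (x + 1) + 1) * (4 * ν + 2 * (x + 1) - 1) := by
      apply mul_nonneg <;> linarith
    have h4 : 0 ≤ (2 * ν + 2 * (x + 1) + 1) ^ 2 := sq_nonneg _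
    have h5 := mul_le_mul h1 h2 (by positivity) (by positivity)
    linarith

/-- the primitive vectors: the quartic form is at most `κ₂` times the norm. -/
theorem qform_prim_le {ν : ℝ} (hν : 1 / 2 ≤ ν) (m : ℕ) (hm : m ≠ 0) :
    frm (qform ν) m prim prim ≤ kap ν 1 * frm (nform (wt ν)) m prim prim := by
  have hν0 : 0 < ν := by linarith
  have hb : 0 ≤ 4 * ν - 2 := by linarith
  have hval : frm (qform ν) m prim prim =
      img ν m prim (π / 2) ^ 2 * mom (4 * ν - 2) m := by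
    rw [frm_qform hν]
    have h1 : J (4 * ν - 2) (fun g => img ν m prim g * img ν m prim g) =
        J (4 * ν - 2) (fun g => img ν m prim (π / 2) ^ 2 * Real.sin g ^ (2 * m)) := by
      unfold J
      refine intervalIntegral.integral_congr fun g hg => ?_
      rw [Set.uIcc_of_le Real.pi_pos.le] at hg
      simp only []
      rw [img_prim hν0 m g hg, pow_mul']
      ring
    rw [h1, J_smul]
    unfold mom
    ring
  rw [hval]
  rcases Nat.even_or_odd' m with ⟨n, rfl | rfl⟩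
  · obtain ⟨k, rfl⟩ := Nat.exists_eq_succ_of_ne_zero (show n ≠ 0 by omega)
    have h1 := kap_le hν k
    have h2 : 0 < np ν (2 * (k + 1)) := np_pos hν0 _
    rw [img_prim_even hν0, np_eq hν0]
    have h3 : kap ν (k + 1) * np ν (2 * (k + 1)) =
        cc ν (k + 1) ^ 2 * mom (4 * ν - 2) (2 * (k + 1)) := by
      unfold kap
      rw [div_mul_cancel₀ _ h2.ne']
    have h4 : ((-1 : ℝ) ^ (k + 1) * (ph (1 / 2) (k + 1) * ph (2 * ν + ((k + 1 : ℕ) : ℝ)) (k + 1) /
        ph (ν + 1 / 2) (k + 1) ^ 2)) ^ 2 = cc ν (k + 1) ^ 2 := by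
      rw [mul_pow, ← pow_mul, mul_comm (k + 1) 2, pow_mul]
      unfold cc
      norm_num
    rw [Nat.succ_eq_add_one, h4, ← h3]
    exact mul_le_mul_of_nonneg_right h1 h2.le
  · rw [img_prim_odd hν0]
    have h1 := (prim_nform_pos (wt_pos hν0) (2 * n + 1)).le
    have h2 := kap_nonneg hν 1
    have : 0 ≤ kap ν 1 * frm (nform (wt ν)) (2 * n + 1) prim prim := mul_nonneg h2 h1
    simpa using this

/-- **The quartic inequality at each level.** -/
theorem quartic_level {ν : ℝ} (hν : 1 / 2 ≤ ν) {W : ℕ → ℝ} (hW0 : W 0 = 1) (hWpos : ∀ m, 0 ≤ W m)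
    (hW : ∀ m : ℕ, (2 * (2 * ν) + m) * W (m + 1) = (m + 1) * W m) (m : ℕ) (x : ℕ → ℕ → ℝ) :
    frm (qform ν) m x x ≤ kap ν 1 * frm (nform (wt ν)) m x x +
      (1 - kap ν 1) * frm (pform W) m x x := by
  have hν0 : 0 < ν := by linarith
  have hkap : kap ν 1 ≤ 1 := by
    rw [kap_one hν, div_le_one (by positivity)]
    nlinarith
  set F : ℕ → ℕ → ℕ → ℕ → ℝ := fun j k j' k' => kap ν 1 * nform (wt ν) j k j' k' +
    (1 - kap ν 1) * pform W j k j' k' - qform ν j k j' k' with hF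
  have hfrm : ∀ m x, frm F m x x = kap ν 1 * frm (nform (wt ν)) m x x +
      (1 - kap ν 1) * frm (pform W) m x x - frm (qform ν) m x x := by
    intro m x
    unfold frm
    simp only [mul_sum, ← sum_add_distrib, ← sum_sub_distrib]
    refine sum_congr rfl fun p _ => sum_congr rfl fun q _ => ?_
    rw [hF]
    ring
  have hinv : Inv (2 * ν) F := by
    intro j k j' k' h
    have h1 := nform_inv (wt_rec hν0) j k j' k' h
    have h2 := pform_inv hW j k j' k' h
    have h3 := qform_inv hν j k j' k' h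
    simp only [hF]
    linear_combination kap ν 1 * h1 + (1 - kap ν 1) * h2 - h3
  have hsym : Sym F := by
    intro j k j' k'
    simp only [hF]
    rw [nform_sym _ j k j' k', pform_sym _ j k j' k', qform_sym _ j k j' k']
  have hprim : ∀ m, 0 ≤ frm F m prim prim := by
    intro m
    rw [hfrm]
    rcases eq_or_ne m 0 with rfl | hm
    · have h1 : frm (qform ν) 0 prim prim = 1 := by
        rw [frm_qform hν]
        have := mom_zero (show 0 ≤ 4 * ν - 2 by linarith)
        unfold mom at this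
        simpa [img, prim, Y, Ch_zero] using this
      have h2 : frm (nform (wt ν)) 0 prim prim = 1 := by
        rw [frm_nform]
        simp [prim, wt, cf]
      have h3 : frm (pform W) 0 prim prim = 1 := by
        rw [frm_pform]
        simp [prim, hW0]
      rw [h1, h2, h3]
      ring_nf
      exact le_refl _
    · have h1 := qform_prim_le hν m hm
      have h2 : 0 ≤ frm (pform W) m prim prim := by
        rw [frm_pform, mul_assoc]
        exact mul_nonneg (hWpos m) (mul_self_nonneg _)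
      have h3 : 0 ≤ (1 - kap ν 1) * frm (pform W) m prim prim :=
        mul_nonneg (by linarith) h2
      linarith
  have := frm_nonneg_of_prim (show 0 < 2 * ν by linarith) (wt_pos hν0) (wt_rec hν0) hinv hsym
    hprim m x
  rw [hfrm] at this
  linarith

end Pool.Agent.ConeRadial
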