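import Mathlib
import Pool.Agent.Work.MP_b0b133_an.Radial.Kap

/-!
The quartic bound and the isometry for zonal waves.
-/

namespace Pool.Agent.ConeRadial

open Finset MeasureTheory
open scoped Real
open Pool.Agent.ConeG.Rad (Ch cf wt)

/-- cut off -/
def cut {K : Type*} [Zero K] (N : ℕ) (a : ℕ → K) : ℕ → K := fun l => if l < N then a l else 0

theorem sq_sum_range {K : Type*} [CommRing K] (N : ℕ) (a : ℕ → K) (z : K) :
    (∑ l ∈ range N, a l * z ^ l) ^ 2 =
      ∑ m ∈ range (2 * N), (∑ p ∈ antidiagonal m, cut N a p.1 * cut N a p.2) * z ^ m := by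
  set P : Polynomial K := ∑ l ∈ range N, Polynomial.monomial l (a l) with hP
  have hc : ∀ l, P.coeff l = cut N a l := by
    intro l
    rw [hP, Polynomial.finset_sum_coeff]
    simp only [Polynomial.coeff_monomial, cut]
    rw [sum_ite_eq' (range N) l a]
    simp [mem_range]
  have he : P.eval z = ∑ l ∈ range N, a l * z ^ l := by
    rw [hP, Polynomial.eval_finset_sum]
    simp [Polynomial.eval_monomial]
  rcases Nat.eq_zero_or_pos N with rfl | hN
  · simp
  have hd : P.natDegree ≤ N - 1 := by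
    rw [hP]
    apply Polynomial.natDegree_sum_le_of_forall_le
    intro l hl
    rw [mem_range] at hl
    exact (Polynomial.natDegree_monomial_le _).trans (by omega)
  have hd2 : (P * P).natDegree < 2 * N :=
    lt_of_le_of_lt Polynomial.natDegree_mul_le (by omega)
  rw [← he, sq, ← Polynomial.eval_mul, Polynomial.eval_eq_sum_range' hd2]
  refine sum_congr rfl fun m _ => ?_
  rw [Polynomial.coeff_mul]
  simp only [hc]

theorem integral_cos_int (n : ℤ) : ∫ T in (0 : ℝ)..(2 * π), Real.cos (n * T) =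
    if n = 0 then 2 * π else 0 := by
  split_ifs with h
  · subst h
    simp
  · have hn : (n : ℝ) ≠ 0 := Int.cast_ne_zero.2 h
    rw [intervalIntegral.integral_comp_mul_left (fun x => Real.cos x) hn, integral_cos]
    have : Real.sin (n * (2 * π)) = 0 := by
      rw [show (n : ℝ) * (2 * π) = (2 * n : ℤ) * π by push_cast; ring]
      exact Real.sin_int_mul_pi _
    simp [this]

theorem integral_sin_int (n : ℤ) : ∫ T in (0 : ℝ)..(2 * π), Real.sin (n * T) = 0 := by
  by_cases h : n = 0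
  · subst h
    simp
  · have hn : (n : ℝ) ≠ 0 := Int.cast_ne_zero.2 h
    rw [intervalIntegral.integral_comp_mul_left (fun x => Real.sin x) hn, integral_sin]
    have : Real.cos (n * (2 * π)) = 1 := Real.cos_int_mul_two_pi n
    simp [this]

theorem norm_sq_sum (M : ℕ) (c : ℕ → ℂ) (T : ℝ) :
    ‖∑ m ∈ range M, c m * Complex.exp (-((m : ℂ) * (T : ℂ) * Complex.I))‖ ^ 2 =
      ∑ m ∈ range M, ∑ n ∈ range M, ((c m * (starRingEnd ℂ) (c n)).re *
        Real.cos (((m : ℤ) - n : ℤ) * T) + (c m * (starRingEnd ℂ) (c n)).im *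
        Real.sin (((m : ℤ) - n : ℤ) * T)) := by
  rw [← Complex.normSq_eq_norm_sq, ← Complex.ofReal_re (Complex.normSq _), Complex.normSq_eq_conj_mul_self,
    mul_comm, map_sum, sum_mul_sum, Complex.re_sum]
  refine sum_congr rfl fun m _ => ?_
  rw [Complex.re_sum]
  refine sum_congr rfl fun n _ => ?_
  rw [map_mul, ← Complex.exp_conj]
  have h1 : c m * Complex.exp (-((m : ℂ) * (T : ℂ) * Complex.I)) *
      ((starRingEnd ℂ) (c n) * Complex.exp ((starRingEnd ℂ) (-((n : ℂ) * (T : ℂ) * Complex.I)))) =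
      (c m * (starRingEnd ℂ) (c n)) *
        Complex.exp (((-((((m : ℤ) - n : ℤ) : ℝ) * T) : ℝ) : ℂ) * Complex.I) := by
    rw [mul_mul_mul_comm, ← Complex.exp_add]
    congr 2
    simp only [map_neg, map_mul, Complex.conj_I, Complex.conj_ofReal, Complex.conj_natCast]
    push_cast
    ring
  rw [h1, Complex.mul_re, Complex.exp_ofReal_mul_I_re, Complex.exp_ofReal_mul_I_im, Real.cos_neg,
    Real.sin_neg]
  ring

/-- Parseval in the time variable, with a weight in the other one. -/
theorem parseval {b : ℝ} (hb : 0 ≤ b) (M : ℕ) (G : ℕ → ℝ → ℂ) (hG : ∀ m, Continuous (G m)) :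
    (2 * π)⁻¹ * ∫ T in (0 : ℝ)..(2 * π), J b (fun g =>
      ‖∑ m ∈ range M, G m g * Complex.exp (-((m : ℂ) * (T : ℂ) * Complex.I))‖ ^ 2) =
      ∑ m ∈ range M, J b (fun g => ‖G m g‖ ^ 2) := by
  have hre : ∀ m n, Continuous fun g => (G m g * (starRingEnd ℂ) (G n g)).re := fun m n =>
    Complex.continuous_re.comp ((hG m).mul (Complex.continuous_conj.comp (hG n)))
  have him : ∀ m n, Continuous fun g => (G m g * (starRingEnd ℂ) (G n g)).im := fun m n =>
    Complex.continuous_im.comp ((hG m).mul (Complex.continuous_conj.comp (hG n)))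
  have h1 : ∀ T : ℝ, J b (fun g =>
      ‖∑ m ∈ range M, G m g * Complex.exp (-((m : ℂ) * (T : ℂ) * Complex.I))‖ ^ 2) =
      ∑ m ∈ range M, ∑ n ∈ range M, (J b (fun g => (G m g * (starRingEnd ℂ) (G n g)).re) *
        Real.cos (((m : ℤ) - n : ℤ) * T) + J b (fun g => (G m g * (starRingEnd ℂ) (G n g)).im) *
        Real.sin (((m : ℤ) - n : ℤ) * T)) := by
    intro T
    simp only [norm_sq_sum]
    rw [J_sum hb]
    · refine sum_congr rfl fun m _ => ?_
      rw [J_sum hb]
      · refine sum_congr rfl fun n _ => ?_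
        rw [mul_comm (J b _) (Real.cos _), mul_comm (J b _) (Real.sin _), ← J_smul, ← J_smul,
          ← J_add hb ((hre m n).const_mul _) ((him m n).const_mul _)]
        congr 1
        ext g
        ring
      · intro n _
        exact ((hre m n).mul continuous_const).add ((him m n).mul continuous_const)
    · intro m _
      refine continuous_finset_sum _ fun n _ => ?_
      exact ((hre m n).mul continuous_const).add ((him m n).mul continuous_const)
  simp only [h1]
  rw [intervalIntegral.integral_finsetSum]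
  · rw [mul_sum]
    refine sum_congr rfl fun m hm => ?_
    rw [intervalIntegral.integral_finsetSum]
    · rw [sum_eq_single m]
      · rw [intervalIntegral.integral_add, intervalIntegral.integral_const_mul,
          intervalIntegral.integral_const_mul, integral_cos_int, integral_sin_int, sub_self,
          if_pos rfl, mul_zero, add_zero]
        · have : (fun g => (G m g * (starRingEnd ℂ) (G m g)).re) = fun g => ‖G m g‖ ^ 2 := by
            ext g
            rw [Complex.mul_conj, Complex.ofReal_re, Complex.normSq_eq_norm_sq]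
          rw [this]
          have := Real.pi_pos.ne'
          field_simp
        · exact (by fun_prop : Continuous _).intervalIntegrable _ _
        · exact (by fun_prop : Continuous _).intervalIntegrable _ _
      · intro n _ hnm
        rw [intervalIntegral.integral_add, intervalIntegral.integral_const_mul,
          intervalIntegral.integral_const_mul, integral_cos_int, integral_sin_int,
          if_neg (by intro h; exact hnm (by omega))]
        · ring
        · exact (by fun_prop : Continuous _).intervalIntegrable _ _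
        · exact (by fun_prop : Continuous _).intervalIntegrable _ _
      · intro h
        exact absurd hm h
    · intro n _
      exact (by fun_prop : Continuous _).intervalIntegrable _ _
  · intro m _
    exact (by fun_prop : Continuous _).intervalIntegrable _ _

/-- the square of a zonal wave -/
theorem F_sq (ν : ℝ) (N : ℕ) (a : ℕ → ℂ) (T g : ℝ) :
    Pool.Agent.ConeG.Rad.F ν N a T g ^ 2 = ∑ m ∈ range (2 * N),
      (∑ p ∈ antidiagonal m, cut N a p.1 * cut N a p.2 * ((Y ν p.1 g * Y ν p.2 g : ℝ) : ℂ)) *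
        Complex.exp (-((m : ℂ) * (T : ℂ) * Complex.I)) := by
  have hz : ∀ l : ℕ, Complex.exp (-((l : ℂ) * (T : ℂ) * Complex.I)) =
      Complex.exp (-((T : ℂ) * Complex.I)) ^ l := by
    intro l
    rw [← Complex.exp_nat_mul]
    congr 1
    ring
  unfold Pool.Agent.ConeG.Rad.F
  simp only [hz]
  rw [sq_sum_range N (fun l => a l * ((Ch ν l (Real.cos g) : ℝ) : ℂ))]
  refine sum_congr rfl fun m _ => ?_
  congr 1
  refine sum_congr rfl fun p _ => ?_
  unfold cut Y
  split_ifs <;> push_cast <;> ring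

theorem continuous_F (ν : ℝ) (N : ℕ) (a : ℕ → ℂ) (T : ℝ) :
    Continuous (fun g => Pool.Agent.ConeG.Rad.F ν N a T g) := by
  unfold Pool.Agent.ConeG.Rad.F
  refine continuous_finset_sum _ fun l _ => ?_
  exact (continuous_const.mul (Complex.continuous_ofReal.comp (continuous_Y ν l))).mul
    continuous_const

/-- **The quartic bound.** -/
theorem quartic_bound {ν : ℝ} (hν : 1 / 2 ≤ ν) (N : ℕ) (a : ℕ → ℂ) :
    (2 * π)⁻¹ * ∫ T in (0 : ℝ)..(2 * π), (∫ g in (0 : ℝ)..π, Real.sin g ^ (4 * ν - 2))⁻¹ *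
      ∫ g in (0 : ℝ)..π, ‖Pool.Agent.ConeG.Rad.F ν N a T g‖ ^ 4 * Real.sin g ^ (4 * ν - 2) ≤
    ν * (4 * ν - 1) / (2 * (2 * ν + 1) ^ 2) * Pool.Agent.ConeG.Rad.E ν N a ^ 2 +
      (1 - ν * (4 * ν - 1) / (2 * (2 * ν + 1) ^ 2)) * ∑ m ∈ range (2 * N),
        wt (2 * ν) m * ‖∑ p ∈ antidiagonal m, cut N a p.1 * cut N a p.2‖ ^ 2 := by
  have hν0 : 0 < ν := by linarith
  have hb : 0 ≤ 4 * ν - 2 := by linarith
  rw [← kap_one hν]
  set G : ℕ → ℝ → ℂ := fun m g =>
    ∑ p ∈ antidiagonal m, cut N a p.1 * cut N a p.2 * ((Y ν p.1 g * Y ν p.2 g : ℝ) : ℂ) with hG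
  have hGc : ∀ m, Continuous (G m) := by
    intro m
    refine continuous_finset_sum _ fun p _ => ?_
    exact continuous_const.mul
      (Complex.continuous_ofReal.comp ((continuous_Y ν _).mul (continuous_Y ν _)))
  have h1 : ∀ T g, ‖Pool.Agent.ConeG.Rad.F ν N a T g‖ ^ 4 =
      ‖∑ m ∈ range (2 * N), G m g * Complex.exp (-((m : ℂ) * (T : ℂ) * Complex.I))‖ ^ 2 := by
    intro T g
    rw [← F_sq, norm_pow]
    ring
  have h2 : (2 * π)⁻¹ * ∫ T in (0 : ℝ)..(2 * π),
      (∫ g in (0 : ℝ)..π, Real.sin g ^ (4 * ν - 2))⁻¹ *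
      ∫ g in (0 : ℝ)..π, ‖Pool.Agent.ConeG.Rad.F ν N a T g‖ ^ 4 * Real.sin g ^ (4 * ν - 2) =
      cst (4 * ν - 2) * ((2 * π)⁻¹ * ∫ T in (0 : ℝ)..(2 * π), J (4 * ν - 2) (fun g =>
      ‖∑ m ∈ range (2 * N), G m g * Complex.exp (-((m : ℂ) * (T : ℂ) * Complex.I))‖ ^ 2)) := by
    rw [intervalIntegral.integral_const_mul]
    simp only [h1]
    unfold cst J
    ring
  rw [h2, parseval hb (2 * N) G hGc, mul_sum]
  set x : ℕ → ℕ → ℝ := fun j k => (cut N a j * cut N a k).re with hx
  set y : ℕ → ℕ → ℝ := fun j k => (cut N a j * cut N a k).im with hy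
  have h3 : ∀ m g, ‖G m g‖ ^ 2 = img ν m x g * img ν m x g + img ν m y g * img ν m y g := by
    intro m g
    have hr : (G m g).re = img ν m x g := by
      rw [hG]
      simp only [Complex.re_sum, Complex.re_mul_ofReal]
      rfl
    have hi : (G m g).im = img ν m y g := by
      rw [hG]
      simp only [Complex.im_sum, Complex.im_mul_ofReal]
      rfl
    rw [← Complex.normSq_eq_norm_sq, Complex.normSq_apply, hr, hi]
  have h4 : ∀ m, cst (4 * ν - 2) * J (4 * ν - 2) (fun g => ‖G m g‖ ^ 2) =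
      frm (qform ν) m x x + frm (qform ν) m y y := by
    intro m
    simp only [h3]
    rw [J_add (φ := fun g => img ν m x g * img ν m x g) (ψ := fun g => img ν m y g * img ν m y g)
      hb ((continuous_img ν m x).mul (continuous_img ν m x))
      ((continuous_img ν m y).mul (continuous_img ν m y)), frm_qform hν, frm_qform hν]
    ring
  have hW : ∀ m : ℕ, (2 * (2 * ν) + m) * wt (2 * ν) (m + 1) = (m + 1) * wt (2 * ν) m :=
    fun m => wt_rec (show 0 < 2 * ν by linarith) m
  have hWpos : ∀ m, 0 ≤ wt (2 * ν) m := fun m => (wt_pos (show 0 < 2 * ν by linarith) m).le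
  have hW0 : wt (2 * ν) 0 = 1 := by simp [wt, cf]
  have h5 : ∀ m, frm (qform ν) m x x + frm (qform ν) m y y ≤
      kap ν 1 * ∑ p ∈ antidiagonal m, cut N (fun l => wt ν l * ‖a l‖ ^ 2) p.1 *
        cut N (fun l => wt ν l * ‖a l‖ ^ 2) p.2 +
      (1 - kap ν 1) * (wt (2 * ν) m * ‖∑ p ∈ antidiagonal m, cut N a p.1 * cut N a p.2‖ ^ 2) := by
    intro m
    have q1 := quartic_level hν hW0 hWpos hW m x
    have q2 := quartic_level hν hW0 hWpos hW m y
    have q3 : frm (nform (wt ν)) m x x + frm (nform (wt ν)) m y y =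
        ∑ p ∈ antidiagonal m, cut N (fun l => wt ν l * ‖a l‖ ^ 2) p.1 *
        cut N (fun l => wt ν l * ‖a l‖ ^ 2) p.2 := by
      rw [frm_nform, frm_nform, ← sum_add_distrib]
      refine sum_congr rfl fun p _ => ?_
      have r1 : x p.1 p.2 * x p.1 p.2 + y p.1 p.2 * y p.1 p.2 =
          ‖cut N a p.1‖ ^ 2 * ‖cut N a p.2‖ ^ 2 := by
        rw [← mul_pow, ← norm_mul, ← Complex.normSq_eq_norm_sq, Complex.normSq_apply]
      have r2 : ∀ l, cut N (fun l => wt ν l * ‖a l‖ ^ 2) l = wt ν l * ‖cut N a l‖ ^ 2 := by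
        intro l
        unfold cut
        split_ifs <;> simp
      rw [r2, r2]
      linear_combination (wt ν p.1 * wt ν p.2) * r1
    have q4 : frm (pform (wt (2 * ν))) m x x + frm (pform (wt (2 * ν))) m y y =
        wt (2 * ν) m * ‖∑ p ∈ antidiagonal m, cut N a p.1 * cut N a p.2‖ ^ 2 := by
      rw [frm_pform, frm_pform, ← Complex.normSq_eq_norm_sq, Complex.normSq_apply, Complex.re_sum,
        Complex.im_sum]
      ring
    rw [← q3, ← q4]
    linarith
  calc ∑ m ∈ range (2 * N), cst (4 * ν - 2) * J (4 * ν - 2) (fun g => ‖G m g‖ ^ 2)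
      ≤ ∑ m ∈ range (2 * N), (kap ν 1 * ∑ p ∈ antidiagonal m,
        cut N (fun l => wt ν l * ‖a l‖ ^ 2) p.1 * cut N (fun l => wt ν l * ‖a l‖ ^ 2) p.2 +
      (1 - kap ν 1) * (wt (2 * ν) m * ‖∑ p ∈ antidiagonal m, cut N a p.1 * cut N a p.2‖ ^ 2)) := by
        refine sum_le_sum fun m _ => ?_
        rw [h4]
        exact h5 m
    _ = _ := by
        rw [sum_add_distrib, ← mul_sum, ← mul_sum]
        congr 2
        have := sq_sum_range N (fun l => wt ν l * ‖a l‖ ^ 2) (1 : ℝ)
        simp only [one_pow, mul_one] at this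
        rw [← this]
        rfl

/-- the `L²` norms of the zonal functions against `sin^(2ν-2)` -/
theorem J_Y_sq {ν : ℝ} (hν : 1 ≤ ν) (l : ℕ) :
    cst (2 * ν - 2) * J (2 * ν - 2) (fun g => Y ν l g ^ 2) = wt ν l := by
  have hν0 : 0 < ν := by linarith
  have hb : 0 ≤ 2 * ν - 2 := by linarith
  have cY : ∀ l, Continuous (Y ν l) := fun l => continuous_Y ν l
  have cdY : ∀ l, Continuous (dY ν l) := fun l => continuous_dY ν l
  induction l with
  | zero =>
    have h1 : (fun g => Y ν 0 g ^ 2) = fun _ => 1 := by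
      ext g
      simp [Y, Ch_zero]
    rw [h1]
    unfold cst J
    simp only [one_mul]
    rw [inv_mul_cancel₀ (J_one_pos hb).ne']
    simp [wt, cf]
  | succ l ih =>
    have hd : ∀ x, HasDerivAt (fun g => Y ν l g * Y ν (l + 1) g)
        (dY ν l x * Y ν (l + 1) x + Y ν l x * dY ν (l + 1) x) x := fun x =>
      (hasDerivAt_Y ν l x).mul (hasDerivAt_Y ν (l + 1) x)
    have h0 := ibp hb hd (by fun_prop)
    have h1 : (fun g => (2 * ν - 2 + 1) * Real.cos g * (Y ν l g * Y ν (l + 1) g) + Real.sin g *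
        (dY ν l g * Y ν (l + 1) g + Y ν l g * dY ν (l + 1) g)) =
        fun g => (2 * ν + l) * Y ν (l + 1) g ^ 2 + (-((l : ℝ) + 1)) * Y ν l g ^ 2 := by
      ext g
      have r1 := Y_rai hν0 l g
      have l1 := Y_low hν0 (l + 1) g
      rw [Nat.add_sub_cancel] at l1
      push_cast at l1
      linear_combination (-Y ν (l + 1) g) * r1 + (Y ν l g) * l1
    rw [h1, J_add hb (by fun_prop) (by fun_prop), J_smul, J_smul] at h0
    have h2 := wt_rec hν0 l
    have h3 : 2 * ν + (l : ℝ) ≠ 0 := by positivity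
    apply mul_left_cancel₀ h3
    rw [h2, ← ih]
    linear_combination cst (2 * ν - 2) * h0

/-- **The isometry.** -/
theorem isometry {ν : ℝ} (hν : 1 ≤ ν) (N : ℕ) (a : ℕ → ℂ) :
    (2 * π)⁻¹ * ∫ T in (0 : ℝ)..(2 * π), (∫ g in (0 : ℝ)..π, Real.sin g ^ (2 * ν - 2))⁻¹ *
      ∫ g in (0 : ℝ)..π, ‖Pool.Agent.ConeG.Rad.F ν N a T g‖ ^ 2 * Real.sin g ^ (2 * ν - 2) =
    Pool.Agent.ConeG.Rad.E ν N a := by
  have hb : 0 ≤ 2 * ν - 2 := by linarith
  set G : ℕ → ℝ → ℂ := fun l g => a l * ((Y ν l g : ℝ) : ℂ) with hG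
  have hGc : ∀ m, Continuous (G m) := by
    intro m
    exact continuous_const.mul (Complex.continuous_ofReal.comp (continuous_Y ν _))
  have h2 : (2 * π)⁻¹ * ∫ T in (0 : ℝ)..(2 * π),
      (∫ g in (0 : ℝ)..π, Real.sin g ^ (2 * ν - 2))⁻¹ *
      ∫ g in (0 : ℝ)..π, ‖Pool.Agent.ConeG.Rad.F ν N a T g‖ ^ 2 * Real.sin g ^ (2 * ν - 2) =
      cst (2 * ν - 2) * ((2 * π)⁻¹ * ∫ T in (0 : ℝ)..(2 * π), J (2 * ν - 2) (fun g =>
      ‖∑ m ∈ range N, G m g * Complex.exp (-((m : ℂ) * (T : ℂ) * Complex.I))‖ ^ 2)) := by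
    rw [intervalIntegral.integral_const_mul]
    unfold cst J Pool.Agent.ConeG.Rad.F
    simp only [hG, Y]
    ring
  rw [h2, parseval hb N G hGc, mul_sum]
  unfold Pool.Agent.ConeG.Rad.E
  refine sum_congr rfl fun l _ => ?_
  have h3 : (fun g => ‖G l g‖ ^ 2) = fun g => ‖a l‖ ^ 2 * Y ν l g ^ 2 := by
    ext g
    rw [hG]
    simp only [norm_mul, Complex.norm_real, mul_pow, Real.norm_eq_abs, sq_abs]
  rw [h3, J_smul]
  have h4 := J_Y_sq hν l
  linear_combination (‖a l‖ ^ 2) * h4

end Pool.Agent.ConeRadial
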